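import Pool.Agent.H453.LP.LowPoly
import Pool.Graph.R_pool_sql_team_seeded_3997aac3.Q198.CI.Dyad

/-!
# Independence of order `c log X / log log X` allows gaps of length `(log X) ^ (2 + 2 / c - ε)`
-/

namespace Pool.Agent.H453.LP

open Finset MeasureTheory Filter Topology
open Pool.Agent.Q51.LI (IsRandomSet HasGap void void_pairwise gap_of_blocks)
open Pool.Agent.H453.LI (tendsto_logX tendsto_loglogX loglog_small)

/-- the void probability -/
lemma tau_large {A c : ℝ} (hA : 2 < A) (hc : 0 < c) (h : c * (A - 2) < 2) : ∃ η : ℝ, 0 < η ∧ η ≤ 1 / 4 ∧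
    ∀ᶠ L : ℝ in atTop, ∀ (K : ℕ) (H I : ℝ), c * L / Real.log L ≤ K → (K : ℝ) ≤ c * L / Real.log L + 2 →
      0 < H → H ≤ 4 * L ^ A → L / 2 ≤ I →
      Real.exp (-((1 - 2 * η) * L)) ≤ ((Real.exp 20 * Real.sqrt (H * (1 / I) / K))⁻¹) ^ K := by
  -- `c / 2 (A - 2 + q) ≤ 1 - 3 η`
  obtain ⟨q, hq⟩ : ∃ q, q = (2 - c * (A - 2)) / (2 * c) := ⟨_, rfl⟩
  have hq0 : 0 < q := by rw [hq]; exact div_pos (by linarith) (by linarith)
  have hq1 : c * q = (2 - c * (A - 2)) / 2 := by rw [hq]; field_simp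
  obtain ⟨η, hη⟩ : ∃ η, η = min (1 / 4) ((2 - c * (A - 2)) / 12) := ⟨_, rfl⟩
  have hη0 : 0 < η := by rw [hη]; exact lt_min (by norm_num) (by linarith)
  have hη1 : η ≤ 1 / 4 := by rw [hη]; exact min_le_left _ _
  have hη2 : η ≤ (2 - c * (A - 2)) / 12 := by rw [hη]; exact min_le_right _ _
  have hη3 : c / 2 * (A - 2 + q) ≤ 1 - 3 * η := by
    have : c / 2 * (A - 2 + q) = c * (A - 2) / 2 + c * q / 2 := by ring
    rw [this, hq1]
    linarith
  refine ⟨η, hη0, hη1, ?_⟩
  have e1 : ∀ᶠ L : ℝ in atTop, 8 * Real.exp 40 / c * Real.log L ≤ L ^ q := by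
    have h1 := (isLittleO_log_rpow_atTop hq0).def (c := c / (8 * Real.exp 40)) (by positivity)
    filter_upwards [h1, eventually_ge_atTop 1] with L h2 h3
    rw [Real.norm_of_nonneg (Real.log_nonneg h3), Real.norm_of_nonneg (by positivity)] at h2
    calc 8 * Real.exp 40 / c * Real.log L ≤ 8 * Real.exp 40 / c * (c / (8 * Real.exp 40) * L ^ q) :=
          mul_le_mul_of_nonneg_left h2 (by positivity)
      _ = L ^ q := by field_simp
  have e2 : ∀ᶠ L : ℝ in atTop, (A - 2 + q) * Real.log L ≤ η * L := by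
    have h1 := Real.isLittleO_log_id_atTop.def (c := η / (A - 2 + q)) (div_pos hη0 (by linarith))
    filter_upwards [h1, eventually_ge_atTop 1] with L h2 h3
    rw [Real.norm_of_nonneg (Real.log_nonneg h3), id, Real.norm_of_nonneg (by linarith)] at h2
    have h4 : 0 < A - 2 + q := by linarith
    calc (A - 2 + q) * Real.log L ≤ (A - 2 + q) * (η / (A - 2 + q) * L) :=
          mul_le_mul_of_nonneg_left h2 h4.le
      _ = η * L := by field_simp
  filter_upwards [e1, e2, eventually_gt_atTop 1, Real.tendsto_log_atTop.eventually_ge_atTop 1]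
    with L g1 g2 g3 g4 K H I hK1 hK2 hH0 hH hI
  have hL0 : 0 < L := by linarith
  have hK0 : (0 : ℝ) < K := lt_of_lt_of_le (by positivity) hK1
  have hI0 : 0 < I := by linarith
  obtain ⟨l, hl⟩ : ∃ l, l = Real.log L := ⟨_, rfl⟩
  rw [← hl] at g1 g2 g4 hK1 hK2
  have hl0 : 0 < l := by linarith
  have hB : 0 < Real.exp 20 * Real.sqrt (H * (1 / I) / K) := by positivity
  have hsqle : Real.exp 20 * Real.sqrt (H * (1 / I) / K) ≤ Real.exp ((A - 2 + q) / 2 * l) := by
    have h1 : (Real.exp 20 * Real.sqrt (H * (1 / I) / K)) ^ 2 ≤ (Real.exp ((A - 2 + q) / 2 * l)) ^ 2 := by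
      rw [mul_pow, Real.sq_sqrt (by positivity), ← Real.exp_nat_mul, ← Real.exp_nat_mul]
      have h2 : H * (1 / I) / K ≤ 4 * L ^ A * (2 / L) * (l / (c * L)) := by
        have e3 : 1 / I ≤ 2 / L := by
          rw [div_le_div_iff₀ hI0 hL0]
          linarith
        have e4 : 1 / (K : ℝ) ≤ l / (c * L) := by
          have : l / (c * L) = 1 / (c * L / l) := by field_simp
          rw [this]
          exact one_div_le_one_div_of_le (by positivity) hK1
        calc H * (1 / I) / K = H * (1 / I) * (1 / K) := by ring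
          _ ≤ 4 * L ^ A * (2 / L) * (l / (c * L)) := by
            refine mul_le_mul (mul_le_mul hH e3 (by positivity) (by positivity)) e4 (by positivity) (by positivity)
      have h3 : Real.exp (((2 : ℕ) : ℝ) * 20) * (4 * L ^ A * (2 / L) * (l / (c * L))) =
          8 * Real.exp 40 / c * l * L ^ (A - 2) := by
        rw [Real.rpow_sub hL0, show ((2 : ℕ) : ℝ) * 20 = 40 by norm_num]
        have : L ^ (2 : ℝ) = L ^ 2 := by norm_cast
        rw [this]
        field_simp
        ring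
      have h4 : Real.exp (((2 : ℕ) : ℝ) * ((A - 2 + q) / 2 * l)) = L ^ q * L ^ (A - 2) := by
        rw [← Real.rpow_add hL0, Real.rpow_def_of_pos hL0, ← hl]
        congr 1
        push_cast
        ring
      rw [h4]
      refine (mul_le_mul_of_nonneg_left h2 (Real.exp_pos _).le).trans ?_
      rw [h3]
      exact mul_le_mul_of_nonneg_right g1 (by positivity)
    exact (pow_le_pow_iff_left₀ hB.le (Real.exp_pos _).le (by norm_num)).1 h1
  have h5 : (Real.exp ((A - 2 + q) / 2 * l))⁻¹ ^ K ≤ ((Real.exp 20 * Real.sqrt (H * (1 / I) / K))⁻¹) ^ K :=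
    pow_le_pow_left₀ (by positivity) (inv_anti₀ hB hsqle) _
  refine le_trans ?_ h5
  rw [← Real.exp_neg, ← Real.exp_nat_mul]
  apply Real.exp_le_exp.2
  have h6 : (K : ℝ) * ((A - 2 + q) / 2 * l) ≤ (c * L / l + 2) * ((A - 2 + q) / 2 * l) :=
    mul_le_mul_of_nonneg_right hK2 (mul_nonneg (by linarith) hl0.le)
  have h7 : (c * L / l + 2) * ((A - 2 + q) / 2 * l) = c / 2 * (A - 2 + q) * L + (A - 2 + q) * l := by
    field_simp
  have h8 : c / 2 * (A - 2 + q) * L ≤ (1 - 3 * η) * L := mul_le_mul_of_nonneg_right hη3 hL0.le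
  linarith

theorem dy_lower (A c : ℝ) (hA : 2 < A) (hc : 0 < c) (hcA : c < 2 / (A - 2)) :
    ∀ᶠ X : ℕ in atTop, ∀ k : ℕ, (k : ℝ) ≤ c * Real.log X / Real.log (Real.log X) →
      ∃ (Ω : Type) (_ : MeasurableSpace Ω) (P : Measure Ω) (E : ℕ → Set Ω), IsProbabilityMeasure P ∧
        (∀ Y, IsRandomSet P k Y E) ∧
        P.real {ω | ¬ HasGap E X (Real.log X ^ A) ω} ≤ (X : ℝ) ^ (-(1 / 3) : ℝ) := by
  have hA2 : 0 < A - 2 := by linarith
  have hcA' : c * (A - 2) < 2 := by rwa [lt_div_iff₀ hA2] at hcA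
  obtain ⟨η, hη0, hη1, htau⟩ := tau_large hA hc hcA'
  have e1 : ∀ᶠ L : ℝ in atTop, 100 * (c * L / Real.log L + 2) ≤ L ^ (A - 1) := by
    have h1 : ∀ᶠ L : ℝ in atTop, 100 * (c + 2) ≤ L ^ (A - 2) := (tendsto_rpow_atTop hA2).eventually_ge_atTop _
    filter_upwards [h1, eventually_ge_atTop 1, Real.tendsto_log_atTop.eventually_ge_atTop 1] with L h2 h3 h4
    have hL0 : 0 < L := by linarith
    have h5 : L ^ (A - 1) = L ^ (A - 2) * L := by
      rw [show A - 1 = A - 2 + 1 by ring, Real.rpow_add hL0, Real.rpow_one]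
    have h6 : c * L / Real.log L ≤ c * L := div_le_self (by positivity) h4
    rw [h5]
    nlinarith
  have e2 : ∀ᶠ L : ℝ in atTop, 64 * L ^ A ≤ Real.exp (η * L) := by
    have h1 := (tendsto_exp_div_rpow_atTop A).comp (tendsto_id.const_mul_atTop hη0 : Tendsto (fun L : ℝ => η * L) atTop atTop)
    filter_upwards [h1.eventually_ge_atTop (64 / η ^ A), eventually_gt_atTop 0] with L h2 h3
    simp only [Function.comp] at h2
    rw [le_div_iff₀ (by positivity), Real.mul_rpow hη0.le h3.le] at h2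
    refine le_trans (le_of_eq ?_) h2
    have : η ^ A ≠ 0 := (Real.rpow_pos_of_pos hη0 A).ne'
    field_simp
  have e3 : ∀ᶠ L : ℝ in atTop, L ≤ Real.exp (η * L) := by
    filter_upwards [sq_le_exp η 1 hη0, eventually_ge_atTop 1] with L h2 h3
    nlinarith
  have e4 := sq_le_exp (1 / 6) 40 (by norm_num)
  filter_upwards [tendsto_logX.eventually htau, tendsto_logX.eventually e1, tendsto_logX.eventually e2,
    tendsto_logX.eventually e3, tendsto_logX.eventually e4, tendsto_logX.eventually_ge_atTop 100,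
    tendsto_loglogX.eventually_ge_atTop 1, eventually_ge_atTop (2 ^ 10)]
    with X g1 g2 g3 g4 g5 g6 g7 g8 k hk
  obtain ⟨L, hL⟩ : ∃ L, L = Real.log X := ⟨_, rfl⟩
  rw [← hL] at g1 g2 g3 g4 g5 g6 g7 hk ⊢
  obtain ⟨l, hl⟩ : ∃ l, l = Real.log L := ⟨_, rfl⟩
  rw [← hl] at g1 g2 g7 hk
  have hL0 : 0 < L := by linarith
  have hl0 : 0 < l := by linarith
  have hXne : X ≠ 0 := by
    have : 0 < 2 ^ 10 := by norm_num
    omega
  have hX0 : (0 : ℝ) < X := by exact_mod_cast Nat.pos_of_ne_zero hXne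
  have hXe : Real.exp L = X := by rw [hL]; exact Real.exp_log hX0
  -- the block
  obtain ⟨i, hi⟩ : ∃ i, Nat.log 2 X = i + 2 := by
    have : 10 ≤ Nat.log 2 X := Nat.le_log_of_pow_le (by norm_num) g8
    exact ⟨Nat.log 2 X - 2, by omega⟩
  have hi1 : 2 ^ (i + 2) ≤ X := by rw [← hi]; exact Nat.pow_log_le_self 2 hXne
  have hi2 : X < 2 ^ (i + 3) := by
    have := Nat.lt_pow_succ_log_self (show 1 < 2 by norm_num) X
    rwa [hi] at this
  have hi8 : 8 ≤ i := by
    have : 10 ≤ Nat.log 2 X := Nat.le_log_of_pow_le (by norm_num) g8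
    omega
  have hi1r : (2 : ℝ) ^ i * 4 ≤ X := by
    have : ((2 ^ (i + 2) : ℕ) : ℝ) ≤ X := by exact_mod_cast hi1
    push_cast at this
    rw [pow_add] at this
    linarith
  have hi2r : (X : ℝ) < (2 : ℝ) ^ i * 8 := by
    have : (X : ℝ) < ((2 ^ (i + 3) : ℕ) : ℝ) := by exact_mod_cast hi2
    push_cast at this
    rw [pow_add] at this
    linarith
  have hl2 := Real.log_two_gt_d9
  have hl2' := Real.log_two_lt_d9
  have hilog : (i : ℝ) * Real.log 2 ≤ L := by
    rw [hL, ← Real.log_pow]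
    apply Real.log_le_log (by positivity)
    have : (0 : ℝ) < (2 : ℝ) ^ i := by positivity
    linarith
  have hilog2 : L / 2 ≤ (i : ℝ) * Real.log 2 := by
    have h1 : L ≤ Real.log ((2 : ℝ) ^ i * 8) := by
      rw [hL]
      exact Real.log_le_log hX0 hi2r.le
    rw [Real.log_mul (by positivity) (by norm_num), Real.log_pow, show (8 : ℝ) = 2 ^ 3 by norm_num,
      Real.log_pow] at h1
    push_cast at h1
    linarith
  -- the length of the windows
  obtain ⟨N, hN⟩ : ∃ N, N = ⌈L ^ A⌉₊ := ⟨_, rfl⟩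
  have hLA : 1 ≤ L ^ A := Real.one_le_rpow (by linarith) (by linarith)
  have hN1 : L ^ A ≤ N := by rw [hN]; exact Nat.le_ceil _
  have hN2 : (N : ℝ) < L ^ A + 1 := by rw [hN]; exact Nat.ceil_lt_add_one (by positivity)
  have hN0 : 1 ≤ N := by
    have : (1 : ℝ) ≤ N := hLA.trans hN1
    exact_mod_cast this
  obtain ⟨h, hh⟩ : ∃ h, h = Nat.clog 2 N := ⟨_, rfl⟩
  have hh1 : N ≤ 2 ^ h := by rw [hh]; exact Nat.le_pow_clog (by norm_num) _
  have hh2 : 2 ^ h ≤ 2 * N := by
    rcases Nat.eq_zero_or_pos h with h0 | h0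
    · rw [h0]
      omega
    · have h1 : 2 ^ (h - 1) < N := by
        rw [← Nat.lt_clog_iff_pow_lt (by norm_num)]
        omega
      have h2 : 2 ^ h = 2 * 2 ^ (h - 1) := by
        rw [← pow_succ']
        congr 1
        omega
      omega
  have hh1r : L ^ A ≤ (2 : ℝ) ^ h := by
    have : (N : ℝ) ≤ ((2 ^ h : ℕ) : ℝ) := by exact_mod_cast hh1
    push_cast at this
    linarith
  have hh2r : (2 : ℝ) ^ h ≤ 4 * L ^ A := by
    have : ((2 ^ h : ℕ) : ℝ) ≤ ((2 * N : ℕ) : ℝ) := by exact_mod_cast hh2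
    push_cast at this
    linarith
  have hexpL : Real.exp (η * L) ≤ Real.exp L := Real.exp_le_exp.2 (by nlinarith)
  have hhi : h ≤ i := by
    have h1 : (2 : ℝ) ^ h ≤ (2 : ℝ) ^ i := by
      have : 4 * L ^ A ≤ (X : ℝ) / 8 := by
        rw [← hXe]
        linarith
      linarith
    exact (pow_le_pow_iff_right₀ (by norm_num : (1 : ℝ) < 2)).1 h1
  -- the order
  obtain ⟨K, hK⟩ : ∃ K, K = 2 * ⌈c * L / (2 * l)⌉₊ := ⟨_, rfl⟩
  have hK1 : c * L / l ≤ K := by
    have := Nat.le_ceil (c * L / (2 * l))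
    rw [hK]
    push_cast
    have e : c * L / l = 2 * (c * L / (2 * l)) := by field_simp
    linarith
  have hK2 : (K : ℝ) ≤ c * L / l + 2 := by
    have : (⌈c * L / (2 * l)⌉₊ : ℝ) < c * L / (2 * l) + 1 := Nat.ceil_lt_add_one (by positivity)
    rw [hK]
    push_cast
    have e : c * L / l = 2 * (c * L / (2 * l)) := by field_simp
    linarith
  have hK0 : 0 < K := by
    have : (0 : ℝ) < K := lt_of_lt_of_le (by positivity) hK1
    exact_mod_cast this
  have hkK : k ≤ K := by exact_mod_cast hk.trans hK1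
  have hK2' : 2 ≤ K := by
    have : 0 < ⌈c * L / (2 * l)⌉₊ := Nat.ceil_pos.2 (by positivity)
    omega
  obtain ⟨hf, hhf⟩ : ∃ hf : ℕ → ℕ, hf = fun j => if j = i then h else 0 := ⟨_, rfl⟩
  have hfi : hf i = h := by rw [hhf]; simp
  obtain ⟨Ω, mΩ, P, hP, E, G, hE, hG, hT, hGE, hs⟩ := Q198.CI.dyadic_model hf
    (fun _ => K) (fun _ => K) {i} (fun j => by
      rw [hhf]
      dsimp only
      split_ifs with h0
      · rw [h0]; exact hhi
      · exact Nat.zero_le _) (fun j hj => by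
      rw [Set.mem_singleton_iff] at hj
      subst hj
      refine ⟨by rw [hK]; exact even_two_mul _, hK0, by omega, by omega, ?_⟩
      rw [hfi, mul_one_div, le_div_iff₀ (by linarith)]
      calc 100 * (K : ℝ) * (j * Real.log 2) ≤ 100 * (c * L / l + 2) * L := by
            refine mul_le_mul (by linarith) hilog (by linarith) (by positivity)
        _ ≤ L ^ (A - 1) * L := mul_le_mul_of_nonneg_right g2 hL0.le
        _ = L ^ A := by
            have : L ^ A = L ^ (A - 1 + 1) := by ring_nf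
            rw [this, Real.rpow_add hL0, Real.rpow_one]
        _ ≤ 2 ^ h := hh1r)
  have hRS : ∀ Y, IsRandomSet P K Y E := by
    intro Y
    refine ⟨fun n _ => hE n, fun S hS hc => ?_⟩
    rw [hT S fun n _ => hc]
    congr 1
    refine prod_congr rfl fun n hn => ?_
    unfold Q198.CI.cp
    rw [if_pos (mem_Icc.1 (hS hn)).1]
  refine ⟨Ω, mΩ, P, E, hP, fun Y => ⟨(hRS Y).1, fun S hS hc => (hRS Y).2 S hS (hc.trans hkK)⟩, ?_⟩
  -- the probability that there is no void window
  have hGc : P.real (G i)ᶜ ≤ Real.exp (-L) := by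
    have h1 := hs {i} (by simp)
    simp only [mem_singleton, Set.iInter_iInter_eq_left, sum_singleton] at h1
    rw [hfi] at h1
    have h2 : L ≤ Q198.CI.tau hf (fun _ => K) i * 2 ^ (i - h) := by
      have h3 := g1 K ((2 : ℝ) ^ h) (i * Real.log 2) hK1 hK2 (by positivity) hh2r hilog2
      have h4 : Q198.CI.tau hf (fun _ => K) i =
          ((Real.exp 20 * Real.sqrt ((2 : ℝ) ^ h * (1 / ((i : ℝ) * Real.log 2)) / K))⁻¹) ^ K := by
        unfold Q198.CI.tau
        rw [hfi]
      rw [h4]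
      have h5 : Real.exp ((1 - η) * L) ≤ 2 ^ (i - h) := by
        have h6 : (2 : ℝ) ^ (i - h) * 2 ^ h = 2 ^ i := by
          rw [← pow_add]
          congr 1
          omega
        have h7 : Real.exp ((1 - η) * L) * (2 : ℝ) ^ h ≤ (2 : ℝ) ^ (i - h) * 2 ^ h := by
          rw [h6]
          have h8 : Real.exp ((1 - η) * L) * (4 * L ^ A) ≤ Real.exp ((1 - η) * L) * (Real.exp (η * L) / 16) :=
            mul_le_mul_of_nonneg_left (by linarith) (Real.exp_pos _).le
          have h9 : Real.exp ((1 - η) * L) * (Real.exp (η * L) / 16) = X / 16 := by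
            rw [mul_div_assoc', ← Real.exp_add, ← hXe]
            congr 2
            ring
          have h10 : Real.exp ((1 - η) * L) * (2 : ℝ) ^ h ≤ Real.exp ((1 - η) * L) * (4 * L ^ A) :=
            mul_le_mul_of_nonneg_left hh2r (Real.exp_pos _).le
          linarith
        exact le_of_mul_le_mul_right h7 (by positivity)
      calc L ≤ Real.exp (η * L) := g4
        _ = Real.exp (-((1 - 2 * η) * L)) * Real.exp ((1 - η) * L) := by
            rw [← Real.exp_add]
            congr 1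
            ring
        _ ≤ _ := mul_le_mul h3 h5 (Real.exp_pos _).le ((Real.exp_pos _).le.trans h3)
    have h3 : P (G i)ᶜ ≤ ENNReal.ofReal (Real.exp (-L)) :=
      h1.trans (ENNReal.ofReal_le_ofReal (Real.exp_le_exp.2 (by linarith)))
    exact ENNReal.toReal_le_of_le_ofReal (Real.exp_pos _).le h3
  -- the ends
  have hX3 : 3 ≤ X := by
    have : 3 ≤ 2 ^ 10 := by norm_num
    omega
  have h256 : 256 ≤ 2 ^ i := by
    calc 256 = 2 ^ 8 := by norm_num
      _ ≤ 2 ^ i := Nat.pow_le_pow_right (by norm_num) hi8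
  have hp1 : 2 ^ (i + 1) = 2 * 2 ^ i := by ring
  have hp2 : 2 ^ (i + 2) = 4 * 2 ^ i := by ring
  have h256r : (256 : ℝ) ≤ (2 : ℝ) ^ i := by exact_mod_cast h256
  have hend1 : P.real (void E (Ico 3 (2 ^ i))) ≤ 16 * L ^ 2 * Real.exp (-L) := by
    have e0 : Ico 3 (2 ^ i) = Ico 3 (3 + (2 ^ i - 3)) := by
      congr 1
      omega
    rw [e0]
    refine (void_pairwise hK2' hX3 (hRS X) 3 (2 ^ i - 3) le_rfl (by omega) (by omega)).trans ?_
    rw [← hL]
    have e1 : (X : ℝ) / 16 ≤ ((2 ^ i - 3 : ℕ) : ℝ) := by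
      rw [Nat.cast_sub (by omega)]
      push_cast
      linarith
    have e2 : 16 * L ^ 2 * Real.exp (-L) = L ^ 2 / (X / 16) := by
      rw [Real.exp_neg, hXe]
      field_simp
    rw [e2]
    exact div_le_div_of_nonneg_left (by positivity) (by positivity) e1
  have hend2 : P.real (void E (Ico (2 ^ (i + 1)) (2 ^ (i + 1) + 2 ^ (i + 1)))) ≤ 16 * L ^ 2 * Real.exp (-L) := by
    refine (void_pairwise hK2' hX3 (hRS X) (2 ^ (i + 1)) (2 ^ (i + 1)) (by omega) (by omega) (by omega)).trans ?_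
    rw [← hL]
    have e1 : (X : ℝ) / 16 ≤ ((2 ^ (i + 1) : ℕ) : ℝ) := by
      rw [hp1]
      push_cast
      linarith
    have e2 : 16 * L ^ 2 * Real.exp (-L) = L ^ 2 / (X / 16) := by
      rw [Real.exp_neg, hXe]
      field_simp
    rw [e2]
    exact div_le_div_of_nonneg_left (by positivity) (by positivity) e1
  have hsub : {ω | ¬ HasGap E X (L ^ A) ω} ⊆
      (G i)ᶜ ∪ (void E (Ico 3 (2 ^ i)) ∪ void E (Ico (2 ^ (i + 1)) (2 ^ (i + 1) + 2 ^ (i + 1)))) := by
    intro ω hω
    by_contra hcon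
    simp only [Set.mem_union, not_or, Set.mem_compl_iff, not_not] at hcon
    obtain ⟨c1, c2, c3⟩ := hcon
    obtain ⟨j, hj1, hj2, hj3⟩ := hGE i ω c1
    rw [hfi] at hj1 hj2 hj3
    simp only [void, Set.mem_setOf_eq] at c2 c3
    push Not at c2 c3
    obtain ⟨n₁, hn₁, hn₁E⟩ := c2
    obtain ⟨n₂, hn₂, hn₂E⟩ := c3
    rw [mem_Ico] at hn₁ hn₂
    apply hω
    have e' : (j + 1) * 2 ^ h = j * 2 ^ h + 2 ^ h := by ring
    refine gap_of_blocks E X (j * 2 ^ h) ((j + 1) * 2 ^ h) ω ⟨n₁, hn₁.1, by omega, hn₁E⟩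
      ⟨n₂, by omega, by omega, hn₂E⟩ (by omega) hj3 _ ?_
    push_cast
    linarith
  have hfin : P.real {ω | ¬ HasGap E X (L ^ A) ω} ≤
      Real.exp (-L) + (16 * L ^ 2 * Real.exp (-L) + 16 * L ^ 2 * Real.exp (-L)) := by
    refine (measureReal_mono hsub (measure_ne_top _ _)).trans ?_
    refine (measureReal_union_le _ _).trans ?_
    exact add_le_add hGc ((measureReal_union_le _ _).trans (add_le_add hend1 hend2))
  refine hfin.trans ?_
  have f1 : (X : ℝ) ^ (-(1 / 3) : ℝ) = Real.exp (-(L / 3)) := by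
    rw [Real.rpow_def_of_pos hX0, ← hL]
    congr 1
    ring
  rw [f1]
  have f2 : 0 < Real.exp (-L) := Real.exp_pos _
  have f3 : Real.exp (-L) + (16 * L ^ 2 * Real.exp (-L) + 16 * L ^ 2 * Real.exp (-L)) ≤ 40 * L ^ 2 * Real.exp (-L) := by
    have : 1 ≤ L ^ 2 := by nlinarith
    nlinarith
  refine f3.trans ((mul_le_mul_of_nonneg_right g5 f2.le).trans ?_)
  rw [← Real.exp_add]
  apply Real.exp_le_exp.2
  linarith

end Pool.Agent.H453.LP
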