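import Pool.Agent.H453.LP.Never

/-!
# Random sets with independence of order `k` and without gaps `≥ 3 (k + 1) (log X + 1)`
-/

namespace Pool.Agent.H453.LP

open Finset MeasureTheory Filter
open Q198.CI (IsLaw cp cp_nonneg cp_le_one bm bm_empty)
open Q198.CC (pwt pwt_nonneg pwt_law pwt_total pwt_union sum_powerset_union' gP gP_prob gP_block gP_indep)
open Pool.Agent.Q51.LI (IsRandomSet HasGap)

/-- A group of `⌈log X⌉` integers `≤ X` is void with probability at most `1 / 2`. -/
lemma group_void {X g a : ℕ} (hX : 1 ≤ Real.log X) (hg : Real.log X ≤ g) (ha : 3 ≤ a) (hb : a + g ≤ X + 1) :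
    ∏ n ∈ Ico a (a + g), (1 - cp n) ≤ 1 / 2 := by
  have hL0 : 0 < Real.log X := by linarith
  have h1 : ∀ n ∈ Ico a (a + g), 1 - cp n ≤ Real.exp (-(1 / Real.log X)) := by
    intro n hn
    rw [mem_Ico] at hn
    have h2 : 1 / Real.log X ≤ cp n := by
      unfold cp
      rw [if_pos (by omega)]
      have h3 : 1 < Real.log n := Q198.CI.one_lt_log (by omega)
      have hn0 : (0 : ℝ) < n := by exact_mod_cast (by omega : 0 < n)
      exact one_div_le_one_div_of_le (by linarith) (Real.log_le_log hn0 (by exact_mod_cast (by omega : n ≤ X)))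
    have h4 := Real.add_one_le_exp (-(1 / Real.log X))
    linarith
  have h5 : ∏ n ∈ Ico a (a + g), (1 - cp n) ≤ ∏ n ∈ Ico a (a + g), Real.exp (-(1 / Real.log X)) :=
    prod_le_prod (fun n _ => by linarith [cp_le_one n]) h1
  refine h5.trans ?_
  rw [prod_const, Nat.card_Ico, ← Real.exp_nat_mul]
  have h6 : ((a + g - a : ℕ) : ℝ) * -(1 / Real.log X) ≤ -1 := by
    rw [Nat.add_sub_cancel_left]
    have : 1 ≤ (g : ℝ) * (1 / Real.log X) := by
      rw [mul_one_div, le_div_iff₀ hL0]
      linarith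
    linarith
  refine (Real.exp_le_exp.2 h6).trans ?_
  have h7 : (2 : ℝ) ≤ Real.exp 1 := by have := Real.add_one_le_exp (1 : ℝ); linarith
  rw [Real.exp_neg, one_div]
  exact inv_anti₀ (by norm_num) h7

theorem small_model (X k : ℕ) (hX : 3 ≤ Real.log X) :
    ∃ (Ω : Type) (_ : MeasurableSpace Ω) (P : Measure Ω) (E : ℕ → Set Ω), IsProbabilityMeasure P ∧
      (∀ Y, IsRandomSet P k Y E) ∧
      P.real {ω | HasGap E X (3 * ((k : ℝ) + 1) * (Real.log X + 1)) ω} = 0 := by
  classical
  set g : ℕ := ⌈Real.log X⌉₊ with hg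
  have hg1 : Real.log X ≤ g := Nat.le_ceil _
  have hg2 : (g : ℝ) < Real.log X + 1 := Nat.ceil_lt_add_one (by linarith)
  have hg3 : 3 ≤ g := by
    have : (3 : ℝ) ≤ g := hX.trans hg1
    exact_mod_cast this
  set W : ℕ := (k + 1) * g with hW
  have hW3 : 3 ≤ W := by
    calc 3 ≤ g := hg3
      _ = 1 * g := (one_mul g).symm
      _ ≤ (k + 1) * g := Nat.mul_le_mul_right _ (by omega)
  set b : ℕ → ℕ := fun n => n / W with hb
  set I : ℕ → Finset ℕ := fun β => Ico (β * W) ((β + 1) * W) with hI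
  have hW0 : 0 < W := by omega
  have hIb : ∀ n β, n ∈ I β ↔ b n = β := by
    intro n β
    simp only [hI, hb, mem_Ico]
    constructor
    · rintro ⟨h1, h2⟩
      exact Nat.div_eq_of_lt_le h1 h2
    · intro h
      have h1 := Nat.div_mul_le_self n W
      have h2 := Nat.lt_div_mul_add (a := n) hW0
      rw [h] at h1 h2
      have h3 : (β + 1) * W = β * W + W := by ring
      exact ⟨h1, by omega⟩
  -- the laws of the blocks
  have hlaw : ∀ β : ℕ, ∃ w : Finset ℕ → ℝ, IsLaw (I β) k cp w ∧ (1 ≤ β → (β + 1) * W ≤ X + 1 → w ∅ = 0) := by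
    intro β
    by_cases hβ : 1 ≤ β ∧ (β + 1) * W ≤ X + 1
    · obtain ⟨w, hw1, hw2⟩ := never_law (I := I β) (k := k) (p := cp) (fun j => Ico (β * W + j * g) (β * W + j * g + g))
        (by
          intro j hj n hn
          rw [mem_range] at hj
          simp only [hI, mem_Ico] at hn ⊢
          have h1 : (j + 1) * g ≤ (k + 1) * g := Nat.mul_le_mul_right _ (by omega)
          have h2 : (j + 1) * g = j * g + g := by ring
          have h3 : (β + 1) * W = β * W + (k + 1) * g := by rw [hW]; ring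
          omega)
        (by
          intro i hi j hj hij
          rw [disjoint_left]
          intro n hn hn'
          simp only [mem_Ico] at hn hn'
          rcases lt_or_gt_of_ne hij with hlt | hlt
          · have h1 : (i + 1) * g ≤ j * g := Nat.mul_le_mul_right _ hlt
            have h2 : (i + 1) * g = i * g + g := by ring
            omega
          · have h1 : (j + 1) * g ≤ i * g := Nat.mul_le_mul_right _ hlt
            have h2 : (j + 1) * g = j * g + g := by ring
            omega)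
        (fun n _ => cp_nonneg n) (fun n _ => cp_le_one n)
        (by
          intro j hj
          rw [mem_range] at hj
          have h1 : (j + 1) * g ≤ (k + 1) * g := Nat.mul_le_mul_right _ (by omega)
          have h2 : (j + 1) * g = j * g + g := by ring
          have h3 : (β + 1) * W = β * W + (k + 1) * g := by rw [hW]; ring
          have h4 : 1 * W ≤ β * W := Nat.mul_le_mul_right _ hβ.1
          have h5 := hβ.2
          exact group_void (by linarith) hg1 (by omega) (by omega))
      exact ⟨w, hw1, fun _ _ => hw2⟩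
    · refine ⟨pwt (I β) cp, pwt_law (fun n _ => cp_nonneg n) (fun n _ => cp_le_one n) k, fun h1 h2 => ?_⟩
      exact absurd ⟨h1, h2⟩ hβ
  choose w hw hw0 using hlaw
  have hprob : IsProbabilityMeasure (gP I w) := gP_prob I (fun _ => k) w hw
  refine ⟨ℕ → Finset ℕ, inferInstance, gP I w, fun n => {ω | n ∈ ω (b n)}, hprob, fun Y => ⟨fun n _ => ?_, fun S hS hc => ?_⟩, ?_⟩
  · have h1 : MeasurableSet {S : Finset ℕ | n ∈ S} := MeasurableSet.of_discrete
    have h2 : Measurable (fun ω : ℕ → Finset ℕ => ω (b n)) := measurable_pi_apply (b n)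
    exact h2 h1
  · rw [gP_indep b I (fun _ => k) w hw hIb cp_nonneg S fun n _ => hc]
    congr 1
    refine prod_congr rfl fun n hn => ?_
    unfold cp
    rw [if_pos (mem_Icc.1 (hS hn)).1]
  · -- the void blocks
    have hnull : ∀ β, 1 ≤ β → (β + 1) * W ≤ X + 1 → gP I w {ω | ∀ n ∈ I β, n ∉ ω β} = 0 := by
      intro β h1 h2
      have h3 := gP_block I (fun _ => k) w hw β {S : Finset ℕ | ∀ n ∈ I β, n ∉ S}
      have h4 : {ω : ℕ → Finset ℕ | ω β ∈ {S : Finset ℕ | ∀ n ∈ I β, n ∉ S}} = {ω | ∀ n ∈ I β, n ∉ ω β} := rfl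
      rw [h4] at h3
      rw [h3, bm_empty, hw0 β h1 h2, ENNReal.ofReal_zero]
    have hsub : {ω : ℕ → Finset ℕ | HasGap (fun n => {ω | n ∈ ω (b n)}) X (3 * ((k : ℝ) + 1) * (Real.log X + 1)) ω} ⊆
        ⋃ β : ℕ, {ω | (1 ≤ β ∧ (β + 1) * W ≤ X + 1) ∧ ∀ n ∈ I β, n ∉ ω β} := by
      rintro ω ⟨a, c, ha, hac, hcX, -, -, hno, hH⟩
      have h1 : 2 * (W : ℝ) + 1 ≤ 3 * ((k : ℝ) + 1) * (Real.log X + 1) := by
        rw [hW]
        push_cast
        have h2 : (0 : ℝ) ≤ k := Nat.cast_nonneg k
        nlinarith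
      have h2 : 2 * W + 1 ≤ c - a := by
        have h3 : ((2 * W + 1 : ℕ) : ℝ) ≤ ((c - a : ℕ) : ℝ) := by
          rw [Nat.cast_sub hac.le]
          push_cast
          linarith
        exact_mod_cast h3
      have h3 := Nat.div_mul_le_self a W
      have h4 := Nat.lt_div_mul_add (a := a) hW0
      obtain ⟨q, hq⟩ : ∃ q, q = a / W := ⟨_, rfl⟩
      rw [← hq] at h3 h4
      obtain ⟨m, hm⟩ : ∃ m, m = q * W := ⟨_, rfl⟩
      rw [← hm] at h3 h4
      have h5 : (q + 1) * W = m + W := by rw [hm]; ring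
      have h6 : (q + 1 + 1) * W = m + W + W := by rw [hm]; ring
      rw [Set.mem_iUnion]
      refine ⟨q + 1, ⟨by omega, by omega⟩, fun n hn hnω => ?_⟩
      have hbn := (hIb n (q + 1)).1 hn
      simp only [hI, mem_Ico] at hn
      have h7 := hno n (by omega) (by omega)
      apply h7
      show n ∈ ω (b n)
      rw [hbn]
      exact hnω
    have hz : gP I w {ω : ℕ → Finset ℕ | HasGap (fun n => {ω | n ∈ ω (b n)}) X (3 * ((k : ℝ) + 1) * (Real.log X + 1)) ω} = 0 := by
      refine measure_mono_null hsub (measure_iUnion_null fun β => ?_)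
      by_cases hβ : 1 ≤ β ∧ (β + 1) * W ≤ X + 1
      · refine measure_mono_null ?_ (hnull β hβ.1 hβ.2)
        intro ω hω
        exact hω.2
      · have : {ω : ℕ → Finset ℕ | (1 ≤ β ∧ (β + 1) * W ≤ X + 1) ∧ ∀ n ∈ I β, n ∉ ω β} = ∅ := by
          ext ω
          simp only [Set.mem_ofPred_eq, Set.mem_empty_iff_false, iff_false]
          exact fun h => hβ h.1
        rw [this, measure_empty]
    unfold Measure.real
    rw [hz, ENNReal.toReal_zero]

end Pool.Agent.H453.LP
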