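import Pool.Agent.H453.LP.Main
import Pool.Agent.H453.LP.Small

/-!
# The orders of independence that imply the lower half; the smallest growth exponent
-/

namespace Pool.Agent.H453.LP

open MeasureTheory Filter Topology
open Pool.Agent.Q51.LI (IsRandomSet HasGap)
open Pool.Agent.H453.LI (tendsto_logX tendsto_loglogX loglog_small poly_upper)

/-- Independence of order `(log X) ^ β` forces gaps of length `(log X) ^ (1 + β - ε)`. -/
theorem low_beta (β ε : ℝ) (hβ0 : 0 < β) (hβ1 : β ≤ 1) (hε : 0 < ε) :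
    ∀ᶠ X : ℕ in atTop, ∀ (Ω : Type) (_ : MeasurableSpace Ω) (P : Measure Ω), IsProbabilityMeasure P →
      ∀ (E : ℕ → Set Ω) (k : ℕ), IsRandomSet P k X E → Real.log X ^ β ≤ k →
        P.real {ω | ¬ HasGap E X (Real.log X ^ (1 + β - ε)) ω} ≤ Real.exp (-(Real.log X ^ β / 8)) := by
  obtain ⟨e, he⟩ : ∃ e, e = min ε (β / 2) := ⟨_, rfl⟩
  have he0 : 0 < e := by rw [he]; exact lt_min hε (by linarith)
  have he1 : e ≤ ε := by rw [he]; exact min_le_left _ _
  have he2 : e ≤ β / 2 := by rw [he]; exact min_le_right _ _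
  have h2 : ∀ᶠ X : ℕ in atTop, 128 ≤ Real.log X ^ e :=
    ((tendsto_rpow_atTop he0).comp tendsto_logX).eventually_ge_atTop _
  have h3 : ∀ᶠ X : ℕ in atTop, 64 ≤ Real.log X ^ (e / 2) :=
    ((tendsto_rpow_atTop (by linarith : (0 : ℝ) < e / 2)).comp tendsto_logX).eventually_ge_atTop _
  have h4 := tendsto_logX.eventually (sq_le_exp (1 / 2) 12 (by norm_num))
  have h5 := tendsto_logX.eventually (sq_le_exp (1 / 4) 4 (by norm_num))
  have h6 : ∀ᶠ X : ℕ in atTop, 14 ≤ Real.log X ^ β / 4 :=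
    (((tendsto_rpow_atTop hβ0).comp tendsto_logX).eventually_ge_atTop 56).mono fun X hX => by
      simp only [Function.comp] at hX
      linarith
  filter_upwards [h2, h3, h4, h5, h6, tendsto_logX.eventually_ge_atTop 100,
    tendsto_loglogX.eventually_ge_atTop (2 / e)] with X g2 g3 g4 g5 g8 g6 g7 Ω _ P _ E k hE hk
  obtain ⟨L, hL⟩ : ∃ L, L = Real.log X := ⟨_, rfl⟩
  rw [← hL] at g2 g3 g4 g5 g6 g7 g8 hk ⊢
  obtain ⟨l, hl⟩ : ∃ l, l = Real.log L := ⟨_, rfl⟩
  rw [← hl] at g7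
  obtain ⟨y, hy⟩ : ∃ y, y = L ^ β := ⟨_, rfl⟩
  rw [← hy] at hk g8 ⊢
  have hL0 : 0 < L := by linarith
  have hk2 : 2 ≤ k := by
    have : (2 : ℝ) ≤ k := by linarith
    exact_mod_cast this
  have hyL : y ≤ L := by
    rw [hy]
    calc L ^ β ≤ L ^ (1 : ℝ) := Real.rpow_le_rpow_of_exponent_le (by linarith) hβ1
      _ = L := Real.rpow_one L
  have hpow1 : 1 ≤ L ^ (β - e) := Real.one_le_rpow (by linarith) (by linarith)
  have hsplit : y = L ^ (β - e) * L ^ e := by
    rw [hy, ← Real.rpow_add hL0]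
    congr 1
    ring
  have hsplit2 : y = L ^ (β - e) * L ^ (e / 2) * L ^ (e / 2) := by
    rw [hy, ← Real.rpow_add hL0, ← Real.rpow_add hL0]
    congr 1
    ring
  have hsq : L ^ (1 + β - e) = L * L ^ (β - e) := by
    rw [show 1 + β - e = 1 + (β - e) by ring, Real.rpow_add hL0, Real.rpow_one]
  have hLle : L ^ (β - e) ≤ L := by
    calc L ^ (β - e) ≤ L ^ (1 : ℝ) := Real.rpow_le_rpow_of_exponent_le (by linarith) (by linarith)
      _ = L := Real.rpow_one L
  obtain ⟨h, hh⟩ : ∃ h, h = ⌈L ^ (1 + β - e)⌉₊ := ⟨_, rfl⟩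
  have hh1 : L ^ (1 + β - e) ≤ h := by rw [hh]; exact Nat.le_ceil _
  have hh2 : (h : ℝ) < L ^ (1 + β - e) + 1 := by rw [hh]; exact Nat.ceil_lt_add_one (by positivity)
  have hhs : (h : ℝ) * (2 / L) ≤ 4 * L ^ (β - e) := by
    have : (h : ℝ) ≤ 2 * (L * L ^ (β - e)) := by
      rw [hsq] at hh2
      nlinarith
    calc (h : ℝ) * (2 / L) ≤ 2 * (L * L ^ (β - e)) * (2 / L) := mul_le_mul_of_nonneg_right this (by positivity)
      _ = 4 * L ^ (β - e) := by field_simp; ring
  have hhe : (1 : ℝ) + h ≤ Real.exp (L / 2) / 4 := by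
    have e1 : (h : ℝ) ≤ L * L + 1 := by
      rw [hsq] at hh2
      nlinarith
    have e2 : 12 * L ^ 2 ≤ Real.exp (L / 2) := by
      rw [show L / 2 = 1 / 2 * L by ring]
      exact g4
    nlinarith
  have hmain := low_gen h (4 * L ^ (β - e)) (L ^ (e / 2)) (by rw [← hL]; exact g6) hk2 hE
    (by rw [← hL]; exact hhe) (by rw [← hL]; exact hhs) (by positivity)
  rw [← hL] at hmain
  -- the estimates
  have a1 : 4 * (4 * L ^ (β - e)) ≤ y / 8 := by
    calc 4 * (4 * L ^ (β - e)) = L ^ (β - e) * 128 / 8 := by ring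
      _ ≤ L ^ (β - e) * L ^ e / 8 := by
          refine div_le_div_of_nonneg_right (mul_le_mul_of_nonneg_left g2 (by positivity)) (by norm_num)
      _ = y / 8 := by rw [← hsplit]
  have a2 : L ^ (e / 2) * (2 * (4 * L ^ (β - e))) ≤ y / 8 := by
    have hp : 0 ≤ L ^ (β - e) * L ^ (e / 2) := by positivity
    calc L ^ (e / 2) * (2 * (4 * L ^ (β - e))) = L ^ (β - e) * L ^ (e / 2) * 64 / 8 := by ring
      _ ≤ L ^ (β - e) * L ^ (e / 2) * L ^ (e / 2) / 8 :=
          div_le_div_of_nonneg_right (mul_le_mul_of_nonneg_left g3 hp) (by norm_num)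
      _ = y / 8 := by rw [← hsplit2]
  have a3 : Real.exp y ≤ (L ^ (e / 2)) ^ k := by
    rw [← Real.rpow_natCast, ← Real.rpow_mul hL0.le, Real.rpow_def_of_pos hL0, ← hl]
    apply Real.exp_le_exp.2
    have e1 : 1 ≤ l * (e / 2) := by
      rw [div_le_iff₀ he0] at g7
      linarith
    have hk0 : (0 : ℝ) ≤ k := Nat.cast_nonneg _
    calc y ≤ k := hk
      _ = 1 * k := (one_mul _).symm
      _ ≤ l * (e / 2) * k := mul_le_mul_of_nonneg_right e1 hk0
      _ = l * (e / 2 * k) := by ring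
  have a4 : Real.exp (L ^ (e / 2) * (2 * (4 * L ^ (β - e)))) / (L ^ (e / 2)) ^ k ≤ Real.exp (y / 8 - y) := by
    rw [Real.exp_sub]
    exact div_le_div₀ (Real.exp_pos _).le (Real.exp_le_exp.2 a2) (Real.exp_pos _) a3
  have a5 : Real.exp (-(L / 2)) ≤ Real.exp (-(y / 2)) := Real.exp_le_exp.2 (by linarith)
  have a5' : Real.exp (y / 8 - y) ≤ Real.exp (-(y / 2)) := Real.exp_le_exp.2 (by linarith)
  have a6 : Real.exp (4 * (4 * L ^ (β - e))) ≤ Real.exp (y / 8) := Real.exp_le_exp.2 a1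
  have hfin : P.real {ω | ¬ HasGap E X (h : ℝ) ω} ≤ Real.exp (-(y / 8)) := by
    refine hmain.trans ?_
    have b1 : Real.exp (4 * (4 * L ^ (β - e))) * (Real.exp (-(L / 2)) +
        6 * (Real.exp (L ^ (e / 2) * (2 * (4 * L ^ (β - e)))) / (L ^ (e / 2)) ^ k)) ≤
        Real.exp (y / 8) * (7 * Real.exp (-(y / 2))) := by
      refine mul_le_mul a6 (by linarith) (by positivity) (Real.exp_pos _).le
    have b2 : Real.exp (y / 8) * (7 * Real.exp (-(y / 2))) = 7 * (Real.exp (-(y / 4)) * Real.exp (-(y / 8))) := by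
      rw [mul_left_comm, ← Real.exp_add, ← Real.exp_add]
      congr 2
      ring
    have b3 : 7 * Real.exp (-(y / 4)) ≤ 1 / 2 := by
      have : 14 ≤ Real.exp (y / 4) := by
        have := Real.add_one_le_exp (y / 4)
        linarith
      have h7 : Real.exp (-(y / 4)) ≤ 1 / 14 := by
        rw [Real.exp_neg, one_div]
        exact inv_anti₀ (by norm_num) this
      linarith
    have b4 : 4 * L ^ 2 * Real.exp (-(L / 2)) ≤ Real.exp (-(L / 8)) * Real.exp (-(y / 8)) := by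
      have h7 : 4 * L ^ 2 * Real.exp (-(L / 2)) ≤ Real.exp (1 / 4 * L) * Real.exp (-(L / 2)) :=
        mul_le_mul_of_nonneg_right g5 (Real.exp_pos _).le
      refine h7.trans ?_
      rw [← Real.exp_add, ← Real.exp_add]
      exact Real.exp_le_exp.2 (by linarith)
    have b5 : Real.exp (-(L / 8)) ≤ 1 / 2 := by
      have : 2 ≤ Real.exp (L / 8) := by
        have := Real.add_one_le_exp (L / 8)
        linarith
      rw [Real.exp_neg, one_div]
      exact inv_anti₀ (by norm_num) this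
    have b6 : 0 < Real.exp (-(y / 8)) := Real.exp_pos _
    have b7 : 7 * (Real.exp (-(y / 4)) * Real.exp (-(y / 8))) ≤ 1 / 2 * Real.exp (-(y / 8)) := by
      rw [← mul_assoc]
      exact mul_le_mul_of_nonneg_right b3 b6.le
    have b8 : Real.exp (-(L / 8)) * Real.exp (-(y / 8)) ≤ 1 / 2 * Real.exp (-(y / 8)) :=
      mul_le_mul_of_nonneg_right b5 b6.le
    linarith
  refine le_trans (measureReal_mono ?_ (measure_ne_top _ _)) hfin
  intro ω hω hg
  refine hω (hg.mono le_rfl ?_)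
  refine le_trans ?_ hh1
  exact Real.rpow_le_rpow_of_exponent_le (by linarith) (by linarith)

/-- Independence of order `(log X) ^ β` allows that all gaps are smaller than `(log X) ^ (1 + β + ε)`. -/
theorem small_beta (β ε : ℝ) (hβ0 : 0 ≤ β) (hε : 0 < ε) :
    ∀ᶠ X : ℕ in atTop, ∀ k : ℕ, (k : ℝ) ≤ Real.log X ^ β →
      ∃ (Ω : Type) (_ : MeasurableSpace Ω) (P : Measure Ω) (E : ℕ → Set Ω), IsProbabilityMeasure P ∧
        (∀ Y, IsRandomSet P k Y E) ∧
        P.real {ω | HasGap E X (Real.log X ^ (1 + β + ε)) ω} = 0 := by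
  have h2 : ∀ᶠ X : ℕ in atTop, 12 ≤ Real.log X ^ ε :=
    ((tendsto_rpow_atTop hε).comp tendsto_logX).eventually_ge_atTop _
  filter_upwards [h2, tendsto_logX.eventually_ge_atTop 3] with X g1 g2 k hk
  obtain ⟨Ω, mΩ, P, E, b1, b2, b3⟩ := small_model X k g2
  refine ⟨Ω, mΩ, P, E, b1, b2, ?_⟩
  obtain ⟨L, hL⟩ : ∃ L, L = Real.log X := ⟨_, rfl⟩
  rw [← hL] at g1 g2 hk b3 ⊢
  have hL0 : 0 < L := by linarith
  have h3 : 1 ≤ L ^ β := Real.one_le_rpow (by linarith) hβ0
  have h4 : 3 * ((k : ℝ) + 1) * (L + 1) ≤ L ^ (1 + β + ε) := by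
    have h5 : 3 * ((k : ℝ) + 1) * (L + 1) ≤ 12 * (L * L ^ β) := by
      have e1 : (k : ℝ) + 1 ≤ 2 * L ^ β := by linarith
      have e2 : L + 1 ≤ 2 * L := by linarith
      calc 3 * ((k : ℝ) + 1) * (L + 1) ≤ 3 * (2 * L ^ β) * (2 * L) :=
            mul_le_mul (mul_le_mul_of_nonneg_left e1 (by norm_num)) e2 (by linarith) (by positivity)
        _ = 12 * (L * L ^ β) := by ring
    have h6 : L ^ (1 + β + ε) = L * L ^ β * L ^ ε := by
      rw [Real.rpow_add hL0, Real.rpow_add hL0, Real.rpow_one]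
    rw [h6]
    have h7 : 0 ≤ L * L ^ β := by positivity
    nlinarith
  refine le_antisymm ?_ measureReal_nonneg
  rw [← b3]
  exact measureReal_mono (fun ω hω => hω.mono le_rfl h4) (measure_ne_top _ _)

lemma one_le_add {Ω : Type} [MeasurableSpace Ω] {P : Measure Ω} [IsProbabilityMeasure P] (A : Ω → Prop) :
    (1 : ℝ) ≤ P.real {ω | A ω} + P.real {ω | ¬ A ω} := by
  have h7 : {ω | A ω} ∪ {ω | ¬ A ω} = Set.univ := by
    ext ω
    simp [em]
  have h8 := measureReal_union_le (μ := P) {ω | A ω} {ω | ¬ A ω}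
  rw [h7] at h8
  have h9 : P.real Set.univ = 1 := by simp
  rwa [h9] at h8

/-- the orders that imply the lower half -/
theorem lower_half (k : ℕ → ℕ) :
    (∀ ε : ℝ, 0 < ε → ∀ δ : ℝ, 0 < δ → ∀ᶠ X : ℕ in atTop,
      ∀ (Ω : Type) (_ : MeasurableSpace Ω) (P : Measure Ω), IsProbabilityMeasure P → ∀ E : ℕ → Set Ω,
        IsRandomSet P (k X) X E → P.real {ω | ¬ HasGap E X (Real.log X ^ (2 - ε)) ω} ≤ δ) ↔
    ∀ ε : ℝ, 0 < ε → ∀ᶠ X : ℕ in atTop, Real.log X ^ (1 - ε) ≤ k X := by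
  constructor
  · intro h
    by_contra hcon
    push Not at hcon
    obtain ⟨ε₀, hε₀, hfr⟩ := hcon
    obtain ⟨e, he⟩ : ∃ e, e = min ε₀ 1 := ⟨_, rfl⟩
    have he0 : 0 < e := by rw [he]; exact lt_min hε₀ (by norm_num)
    have he1 : e ≤ ε₀ := by rw [he]; exact min_le_left _ _
    have he2 : e ≤ 1 := by rw [he]; exact min_le_right _ _
    have h1 := h (e / 2) (by positivity) (1 / 2) (by norm_num)
    have h2 := small_beta (1 - e) (e / 2) (by linarith) (by positivity)
    obtain ⟨X, hX, g1, g2, g3⟩ := (hfr.and_eventually (h1.and (h2.and (tendsto_logX.eventually_ge_atTop 1)))).exists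
    have hk : (k X : ℝ) ≤ Real.log X ^ (1 - e) :=
      hX.le.trans (Real.rpow_le_rpow_of_exponent_le g3 (by linarith))
    obtain ⟨Ω, mΩ, P, E, b1, b2, b3⟩ := g2 (k X) hk
    have g6 := g1 Ω mΩ P b1 E (b2 X)
    have e1 : 1 + (1 - e) + e / 2 = 2 - e / 2 := by ring
    rw [e1] at b3
    have h6 := one_le_add (P := P) (HasGap E X (Real.log X ^ (2 - e / 2)))
    rw [b3] at h6
    linarith
  · intro h ε hε δ hδ
    obtain ⟨e, he⟩ : ∃ e, e = min (ε / 2) (1 / 2) := ⟨_, rfl⟩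
    have he0 : 0 < e := by rw [he]; exact lt_min (by linarith) (by norm_num)
    have he1 : e ≤ ε / 2 := by rw [he]; exact min_le_left _ _
    have he2 : e ≤ 1 / 2 := by rw [he]; exact min_le_right _ _
    have h1 := low_beta (1 - e) (ε / 2) (by linarith) (by linarith) (by positivity)
    have h2 : ∀ᶠ X : ℕ in atTop, Real.exp (-(Real.log X ^ (1 - e) / 8)) ≤ δ := by
      have h3 : Tendsto (fun X : ℕ => Real.log X ^ (1 - e) / 8) atTop atTop :=
        ((tendsto_rpow_atTop (by linarith)).comp tendsto_logX).atTop_div_const (by norm_num)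
      exact (Real.tendsto_exp_neg_atTop_nhds_zero.comp h3).eventually_le_const hδ
    filter_upwards [h1, h2, h e he0, tendsto_logX.eventually_ge_atTop 1] with X g1 g2 g3 g4 Ω _ P hP E hE
    refine le_trans (measureReal_mono ?_ (measure_ne_top _ _)) ((g1 Ω _ P hP E (k X) hE g3).trans g2)
    intro ω hω hg
    exact hω (hg.mono le_rfl (Real.rpow_le_rpow_of_exponent_le g4 (by linarith)))

/-- the orders that imply the upper half -/
theorem upper_half (k : ℕ → ℕ) :
    (∀ ε : ℝ, 0 < ε → ∀ δ : ℝ, 0 < δ → ∀ᶠ X : ℕ in atTop,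
      ∀ (Ω : Type) (_ : MeasurableSpace Ω) (P : Measure Ω), IsProbabilityMeasure P → ∀ E : ℕ → Set Ω,
        IsRandomSet P (k X) X E → P.real {ω | HasGap E X (Real.log X ^ (2 + ε)) ω} ≤ δ) ↔
    Tendsto (fun X : ℕ => (k X : ℝ) * Real.log (Real.log X) / Real.log X) atTop atTop := by
  constructor
  · intro h
    by_contra hcon
    rw [tendsto_atTop] at hcon
    push Not at hcon
    obtain ⟨C₀, hC₀⟩ := hcon
    obtain ⟨C, hC⟩ : ∃ C, C = max C₀ 1 := ⟨_, rfl⟩
    have hC1 : 1 ≤ C := by rw [hC]; exact le_max_right _ _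
    have hCC : C₀ ≤ C := by rw [hC]; exact le_max_left _ _
    have hC0 : 0 < C := by linarith
    have h1 := h (1 / C) (by positivity) (1 / 4) (by norm_num)
    have h2 := sharp C (1 / C) hC0 (by positivity)
    have h3 := (h1.and (h2.and ((rpow_small (1 / 3) (1 / 4) (by norm_num) (by norm_num)).and
      ((tendsto_logX.eventually_ge_atTop 1).and (tendsto_loglogX.eventually_ge_atTop 1)))))
    obtain ⟨X, hX, g1, g2, g3, g4, g5⟩ := (hC₀.and_eventually h3).exists
    have hk : (k X : ℝ) ≤ C * Real.log X / Real.log (Real.log X) := by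
      rw [le_div_iff₀ (by linarith)]
      rw [div_lt_iff₀ (by linarith)] at hX
      have : C₀ * Real.log X ≤ C * Real.log X := mul_le_mul_of_nonneg_right hCC (by linarith)
      linarith
    obtain ⟨Ω, mΩ, P, E, b1, b2, b3⟩ := g2 (k X) hk
    have g6 := g1 Ω mΩ P b1 E (b2 X)
    have e1 : 2 + 2 / C - 1 / C = 2 + 1 / C := by ring
    rw [e1] at b3
    have h6 := one_le_add (P := P) (HasGap E X (Real.log X ^ (2 + 1 / C)))
    linarith
  · intro h ε hε δ hδ
    filter_upwards [(threshold k).2 h ε hε δ hδ] with X hX Ω mΩ P hP E hE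
    exact le_trans (measureReal_mono (fun ω hω => Or.inl hω) (measure_ne_top _ _)) (hX Ω mΩ P hP E hE)

end Pool.Agent.H453.LP
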