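import Pool.Graph.R_pool_sql_team_seeded_2aa45f1a.Q51.LI.Low
import Pool.Graph.R_pool_sql_team_seeded_2aa45f1a.Q51.LI.Counter

/-!
# A lower bound for the largest gap, for small orders of independence
-/

namespace Pool.Agent.H453.LP

open Finset MeasureTheory
open Pool.Agent.Q51.LI

variable {Ω : Type} [MeasurableSpace Ω] {P : Measure Ω} {k X : ℕ} {E : ℕ → Set Ω}

theorem low_gen [IsProbabilityMeasure P] (h : ℕ) (s t : ℝ) (hX : 100 ≤ Real.log X) (hk : 2 ≤ k)
    (hE : IsRandomSet P k X E) (hh : (1 : ℝ) + h ≤ Real.exp (Real.log X / 2) / 4)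
    (hs : h * (2 / Real.log X) ≤ s) (ht : 0 < t) :
    P.real {ω | ¬ HasGap E X h ω} ≤
      Real.exp (4 * s) * (Real.exp (-(Real.log X / 2)) + 6 * (Real.exp (t * (2 * s)) / t ^ k)) +
        4 * Real.log X ^ 2 * Real.exp (-(Real.log X / 2)) := by
  classical
  set L := Real.log X with hLdef
  have hX0' : X ≠ 0 := by
    rintro rfl
    simp at hLdef
    linarith
  have hX0 : (0 : ℝ) < X := by exact_mod_cast Nat.pos_of_ne_zero hX0'
  have hXe : Real.exp L = X := Real.exp_log hX0
  have hX3 : 3 ≤ X := by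
    have : (3 : ℝ) ≤ X := by
      rw [← hXe]
      have := Real.add_one_le_exp L
      linarith
    exact_mod_cast this
  -- the square root
  set M := Nat.sqrt X + 1 with hM
  have hsq : Real.exp (L / 2) ^ 2 = X := by
    rw [← Real.exp_nat_mul, ← hXe]
    congr 1
    push_cast
    ring
  have hM1 : Real.exp (L / 2) ≤ M := by
    have h1 : X < M ^ 2 := by rw [hM, sq]; exact Nat.lt_succ_sqrt X
    have h2 : (X : ℝ) < (M : ℝ) ^ 2 := by exact_mod_cast h1
    rw [← hsq] at h2
    exact (lt_of_pow_lt_pow_left₀ 2 (Nat.cast_nonneg M) h2).le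
  have hM2 : (M : ℝ) ≤ Real.exp (L / 2) + 1 := by
    have h1 : (Nat.sqrt X) ^ 2 ≤ X := Nat.sqrt_le' X
    have h2 : ((Nat.sqrt X : ℕ) : ℝ) ^ 2 ≤ Real.exp (L / 2) ^ 2 := by rw [hsq]; exact_mod_cast h1
    have h3 := (pow_le_pow_iff_left₀ (by positivity) (Real.exp_pos _).le (by norm_num : (2 : ℕ) ≠ 0)).1 h2
    rw [hM]
    push_cast
    linarith
  have hR : 12 ≤ Real.exp (L / 2) := by
    have := Real.add_one_le_exp (L / 2)
    linarith
  have hMh : ((M + M * h : ℕ) : ℝ) ≤ X / 2 := by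
    push_cast
    have e1 : (M : ℝ) + M * h = M * (1 + h) := by ring
    rw [e1, ← hsq]
    have e3 : (M : ℝ) ≤ 2 * Real.exp (L / 2) := by linarith
    calc (M : ℝ) * (1 + h) ≤ (2 * Real.exp (L / 2)) * (Real.exp (L / 2) / 4) :=
          mul_le_mul e3 hh (by positivity) (by positivity)
      _ = Real.exp (L / 2) ^ 2 / 2 := by ring
  have hMh' : M + M * h ≤ X / 2 := by
    rw [Nat.le_div_iff_mul_le (by norm_num)]
    have : (((M + M * h) * 2 : ℕ) : ℝ) ≤ X := by push_cast at hMh ⊢; linarith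
    exact_mod_cast this
  have hM3 : 4 ≤ M := by
    have : (4 : ℝ) ≤ M := by linarith
    exact_mod_cast this
  -- the blocks
  set I : ℕ → Finset ℕ := fun j => Ico (M + j * h) (M + (j + 1) * h) with hI
  have hIsub : ∀ j < M, I j ⊆ Icc 3 X ∧ ∀ n ∈ I j, M ≤ n ∧ n < X := by
    intro j hj
    have e : (j + 1) * h ≤ M * h := Nat.mul_le_mul_right _ hj
    have key : ∀ n ∈ I j, M ≤ n ∧ n < X := by
      intro n hn
      simp only [hI, mem_Ico] at hn
      have e2 : X / 2 ≤ X := Nat.div_le_self _ _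
      have e3 : 0 ≤ j * h := Nat.zero_le _
      exact ⟨by omega, by omega⟩
    refine ⟨fun n hn => ?_, key⟩
    have := key n hn
    rw [mem_Icc]
    omega
  have hdisj : ∀ i j, i ≠ j → Disjoint (I i) (I j) := by
    intro i j hij
    rw [disjoint_left]
    intro n hn hn'
    simp only [hI, mem_Ico] at hn hn'
    rcases lt_or_gt_of_ne hij with hlt | hlt
    · have : (i + 1) * h ≤ j * h := Nat.mul_le_mul_right _ hlt
      omega
    · have : (j + 1) * h ≤ i * h := Nat.mul_le_mul_right _ hlt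
      omega
  have hprn : ∀ j < M, ∀ n ∈ I j, 0 ≤ pr n ∧ pr n ≤ 2 / L := by
    intro j hj n hn
    have h1 := ((hIsub j hj).2 n hn).1
    have h3 : 3 ≤ n := by omega
    refine ⟨(pr_mem h3).1.le, ?_⟩
    have h4 : L / 2 ≤ Real.log n := by
      rw [← Real.log_exp (L / 2)]
      exact Real.log_le_log (Real.exp_pos _) (hM1.trans (by exact_mod_cast h1))
    unfold pr
    rw [div_le_div_iff₀ (by linarith) (by linarith)]
    linarith
  have hsumI : ∀ j < M, ∑ n ∈ I j, pr n ≤ s := by
    intro j hj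
    calc ∑ n ∈ I j, pr n ≤ ∑ n ∈ I j, 2 / L := sum_le_sum fun n hn => (hprn j hj n hn).2
      _ = h * (2 / L) := by
          rw [sum_const, nsmul_eq_mul]
          congr 2
          simp only [hI, Nat.card_Ico]
          have : (j + 1) * h = j * h + h := by ring
          omega
      _ ≤ s := hs
  set Q : ℕ → ℝ := fun j => ∏ n ∈ I j, (1 - pr n) with hQ
  have hL2 : 2 / L ≤ 1 / 2 := by
    rw [div_le_div_iff₀ (by linarith) (by norm_num)]
    linarith
  have hQ01 : ∀ j < M, 0 ≤ Q j ∧ Q j ≤ 1 := by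
    intro j hj
    refine ⟨prod_nonneg fun n hn => ?_, prod_le_one (fun n hn => ?_) fun n hn => ?_⟩
    · linarith [(hprn j hj n hn).2]
    · linarith [(hprn j hj n hn).2]
    · linarith [(hprn j hj n hn).1]
  have hQlow : ∀ j < M, Real.exp (-(2 * s)) ≤ Q j := by
    intro j hj
    have e1 : Real.exp (-(2 * ∑ n ∈ I j, pr n)) ≤ Q j := by
      rw [mul_sum, ← sum_neg_distrib, Real.exp_sum]
      refine prod_le_prod (fun n _ => (Real.exp_pos _).le) fun n hn => ?_
      exact one_sub_ge (hprn j hj n hn).1 ((hprn j hj n hn).2.trans hL2)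
    refine le_trans (Real.exp_le_exp.2 ?_) e1
    have := hsumI j hj
    linarith
  have hk1 : 1 ≤ k := by omega
  have hs0 : 0 ≤ s := le_trans (by positivity) hs
  set ε : ℝ := 2 * (Real.exp (t * (2 * s)) / t ^ k) with hε
  have hε0 : 0 ≤ ε := by positivity
  have hnear : ∀ S : Finset ℕ, S ⊆ Icc 3 X → ∑ n ∈ S, pr n ≤ 2 * s →
      |P.real (void E S) - ∏ n ∈ S, (1 - pr n)| ≤ ε := by
    intro S hS hμ
    refine (void_near hk1 hE hS t ht).trans ?_
    rw [hε]
    refine mul_le_mul_of_nonneg_left ?_ (by norm_num)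
    refine div_le_div_of_nonneg_right (Real.exp_le_exp.2 ?_) (by positivity)
    exact mul_le_mul_of_nonneg_left hμ ht.le
  have hone : ∀ j < M, |P.real (void E (I j)) - Q j| ≤ ε := fun j hj =>
    hnear _ (hIsub j hj).1 (by have := hsumI j hj; linarith)
  have htwo : ∀ i < M, ∀ j < M, i ≠ j → |P.real (void E (I i) ∩ void E (I j)) - Q i * Q j| ≤ ε := by
    intro i hi j hj hij
    have e1 : void E (I i) ∩ void E (I j) = void E (I i ∪ I j) := by
      ext ω
      simp only [void, Set.mem_inter_iff, Set.mem_setOf_eq, mem_union]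
      exact ⟨fun h n hn => hn.elim (h.1 n) (h.2 n), fun h => ⟨fun n hn => h n (Or.inl hn), fun n hn => h n (Or.inr hn)⟩⟩
    have e2 : Q i * Q j = ∏ n ∈ I i ∪ I j, (1 - pr n) := by
      rw [prod_union (hdisj i j hij)]
    rw [e1, e2]
    refine hnear _ (union_subset (hIsub i hi).1 (hIsub j hj).1) ?_
    rw [sum_union (hdisj i j hij)]
    have := hsumI i hi
    have := hsumI j hj
    linarith
  -- Chebyshev
  have hmeas : ∀ j, MeasurableSet (void E (I j ∩ Icc 3 X)) := fun j => measurable_void hE inter_subset_right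
  have heq : ∀ j < M, I j ∩ Icc 3 X = I j := fun j hj => inter_eq_left.2 (hIsub j hj).1
  have hcheb := second_moment (P := P) M (fun j => void E (I j ∩ Icc 3 X)) hmeas Q hQ01 ε
    (fun j hj => by simp only [heq j hj]; exact hone j hj)
    (fun i hi j hj hij => by simp only [heq i hi, heq j hj]; exact htwo i hi j hj hij)
  have hev : {ω | ∀ j < M, ω ∉ void E (I j ∩ Icc 3 X)} = {ω | ∀ j < M, ω ∉ void E (I j)} := by
    ext ω
    simp only [Set.mem_setOf_eq]
    exact ⟨fun h j hj => by have := h j hj; rwa [heq j hj] at this, fun h j hj => by rw [heq j hj]; exact h j hj⟩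
  rw [hev] at hcheb
  set p0 := P.real {ω | ∀ j < M, ω ∉ void E (I j)} with hp0
  have hMpos : (0 : ℝ) < M := by positivity
  have hVlow : M * Real.exp (-(2 * s)) ≤ ∑ j ∈ range M, Q j := by
    have : ∑ j ∈ range M, Real.exp (-(2 * s)) ≤ ∑ j ∈ range M, Q j :=
      sum_le_sum fun j hj => hQlow j (mem_range.1 hj)
    rwa [sum_const, card_range, nsmul_eq_mul] at this
  have hp0' : p0 * (M * Real.exp (-(2 * s))) ^ 2 ≤ M + 3 * ε * M ^ 2 := by
    refine le_trans (mul_le_mul_of_nonneg_left ?_ measureReal_nonneg) hcheb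
    exact pow_le_pow_left₀ (by positivity) hVlow 2
  have hp1 : p0 ≤ Real.exp (4 * s) * (Real.exp (-(L / 2)) + 3 * ε) := by
    have e1 : (M * Real.exp (-(2 * s))) ^ 2 = M ^ 2 * Real.exp (-(4 * s)) := by
      rw [mul_pow, ← Real.exp_nat_mul]
      congr 2
      push_cast
      ring
    rw [e1] at hp0'
    have e2 : (M : ℝ) + 3 * ε * M ^ 2 ≤ M ^ 2 * (Real.exp (-(L / 2)) + 3 * ε) := by
      have a1 : (1 : ℝ) ≤ M * Real.exp (-(L / 2)) := by
        have : Real.exp (L / 2) * Real.exp (-(L / 2)) = 1 := by rw [← Real.exp_add]; simp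
        rw [← this]
        exact mul_le_mul_of_nonneg_right hM1 (Real.exp_pos _).le
      have a2 : (M : ℝ) ≤ M ^ 2 * Real.exp (-(L / 2)) := by
        calc (M : ℝ) = M * 1 := (mul_one _).symm
          _ ≤ M * (M * Real.exp (-(L / 2))) := mul_le_mul_of_nonneg_left a1 hMpos.le
          _ = _ := by ring
      linarith
    have e3 : p0 * Real.exp (-(4 * s)) ≤ Real.exp (-(L / 2)) + 3 * ε := by
      have : M ^ 2 * (p0 * Real.exp (-(4 * s))) ≤ M ^ 2 * (Real.exp (-(L / 2)) + 3 * ε) := by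
        calc (M : ℝ) ^ 2 * (p0 * Real.exp (-(4 * s))) = p0 * (M ^ 2 * Real.exp (-(4 * s))) := by ring
          _ ≤ _ := hp0'.trans e2
      exact le_of_mul_le_mul_left this (by positivity)
    have e4 : p0 = Real.exp (4 * s) * (p0 * Real.exp (-(4 * s))) := by
      rw [mul_comm p0, ← mul_assoc, ← Real.exp_add]
      simp
    rw [e4]
    exact mul_le_mul_of_nonneg_left e3 (Real.exp_pos _).le
  -- the two ends
  have hend1 : P.real (void E (Ico 3 M)) ≤ 2 * L ^ 2 * Real.exp (-(L / 2)) := by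
    have e0 : Ico 3 M = Ico 3 (3 + (M - 3)) := by
      congr 1
      omega
    rw [e0]
    refine (void_pairwise hk hX3 hE 3 (M - 3) le_rfl (by
      have : X / 2 ≤ X := Nat.div_le_self _ _
      have e3 : 0 ≤ M * h := Nat.zero_le _
      omega) (by omega)).trans ?_
    have e1 : Real.exp (L / 2) / 2 ≤ ((M - 3 : ℕ) : ℝ) := by
      rw [Nat.cast_sub (by omega)]
      push_cast
      linarith
    have e2 : 2 * L ^ 2 * Real.exp (-(L / 2)) = L ^ 2 / (Real.exp (L / 2) / 2) := by
      rw [Real.exp_neg]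
      field_simp
    rw [e2]
    exact div_le_div_of_nonneg_left (by positivity) (by positivity) e1
  have hend2 : P.real (void E (Ioc (X / 2) X)) ≤ 2 * L ^ 2 * Real.exp (-(L / 2)) := by
    have e0 : Ioc (X / 2) X = Ico (X / 2 + 1) (X / 2 + 1 + (X - X / 2)) := by
      ext n
      rw [mem_Ioc, mem_Ico]
      omega
    rw [e0]
    refine (void_pairwise hk hX3 hE (X / 2 + 1) (X - X / 2) (by
      have e3 : 0 ≤ M * h := Nat.zero_le _
      omega) (by omega) (by omega)).trans ?_
    have e1 : Real.exp (L / 2) / 2 ≤ ((X - X / 2 : ℕ) : ℝ) := by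
      rw [Nat.cast_sub (Nat.div_le_self _ _)]
      have e1 : ((X / 2 : ℕ) : ℝ) ≤ X / 2 := Nat.cast_div_le
      have e2 : Real.exp (L / 2) ≤ (X : ℝ) := by
        rw [← hsq]
        nlinarith
      linarith
    have e2 : 2 * L ^ 2 * Real.exp (-(L / 2)) = L ^ 2 / (Real.exp (L / 2) / 2) := by
      rw [Real.exp_neg]
      field_simp
    rw [e2]
    exact div_le_div_of_nonneg_left (by positivity) (by positivity) e1
  -- conclusion
  have hsub : {ω | ¬ HasGap E X h ω} ⊆
      {ω | ∀ j < M, ω ∉ void E (I j)} ∪ (void E (Ico 3 M) ∪ void E (Ioc (X / 2) X)) := by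
    intro ω hω
    by_contra hcon
    simp only [Set.mem_union, not_or] at hcon
    obtain ⟨c1, c2, c3⟩ := hcon
    simp only [Set.mem_setOf_eq] at c1
    push Not at c1
    obtain ⟨j, hj, hvoid⟩ := c1
    simp only [void, Set.mem_setOf_eq] at c2 c3
    push Not at c2 c3
    obtain ⟨n₁, hn₁, hn₁E⟩ := c2
    obtain ⟨n₂, hn₂, hn₂E⟩ := c3
    rw [mem_Ico] at hn₁
    rw [mem_Ioc] at hn₂
    apply hω
    have e : (j + 1) * h ≤ M * h := Nat.mul_le_mul_right _ hj
    have e' : (j + 1) * h = j * h + h := by ring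
    refine gap_of_blocks E X (M + j * h) (M + (j + 1) * h) ω ⟨n₁, hn₁.1, ?_, hn₁E⟩ ⟨n₂, ?_, hn₂.2, hn₂E⟩ ?_ ?_ _ ?_
    · have : 0 ≤ j * h := Nat.zero_le _
      omega
    · omega
    · omega
    · intro n h1 h2
      exact hvoid n (by simp only [hI, mem_Ico]; exact ⟨h1, h2⟩)
    · push_cast
      linarith
  have hfin : P.real {ω | ¬ HasGap E X h ω} ≤ p0 + (2 * L ^ 2 * Real.exp (-(L / 2)) + 2 * L ^ 2 * Real.exp (-(L / 2))) := by
    refine (measureReal_mono hsub (measure_ne_top _ _)).trans ?_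
    refine (measureReal_union_le _ _).trans ?_
    refine add_le_add le_rfl ((measureReal_union_le _ _).trans (add_le_add hend1 hend2))
  refine hfin.trans ?_
  have e5 : 3 * ε = 6 * (Real.exp (t * (2 * s)) / t ^ k) := by rw [hε]; ring
  rw [← e5]
  linarith

end Pool.Agent.H453.LP
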