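import Pool.Agent.H453.LP.LowGen
import Pool.Agent.H453.LI.Poly

/-!
# Independence of order `c log X / log log X` forces gaps of length `(log X) ^ (2 - ε)`
-/

namespace Pool.Agent.H453.LP

open Finset MeasureTheory Filter Topology
open Pool.Agent.Q51.LI (IsRandomSet HasGap)
open Pool.Agent.H453.LI (tendsto_logX tendsto_loglogX loglog_small)

lemma sq_le_exp (a C : ℝ) (ha : 0 < a) : ∀ᶠ L : ℝ in atTop, C * L ^ 2 ≤ Real.exp (a * L) := by
  have h1 : Tendsto (fun L : ℝ => a * L) atTop atTop := tendsto_id.const_mul_atTop ha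
  have h2 := ((Real.tendsto_exp_div_pow_atTop 2).comp h1).eventually_ge_atTop (C / a ^ 2)
  filter_upwards [h2, eventually_gt_atTop 0] with L h3 h4
  simp only [Function.comp] at h3
  rw [le_div_iff₀ (by positivity)] at h3
  refine le_trans (le_of_eq ?_) h3
  field_simp

theorem poly_low (c ε : ℝ) (hc : 0 < c) (hε : 0 < ε) : ∃ δ : ℝ, 0 < δ ∧
    ∀ᶠ X : ℕ in atTop, ∀ (Ω : Type) (_ : MeasurableSpace Ω) (P : Measure Ω), IsProbabilityMeasure P →
      ∀ (E : ℕ → Set Ω) (k : ℕ), IsRandomSet P k X E → c * Real.log X / Real.log (Real.log X) ≤ k →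
        P.real {ω | ¬ HasGap E X (Real.log X ^ (2 - ε)) ω} ≤ (X : ℝ) ^ (-δ) := by
  obtain ⟨e, he⟩ : ∃ e, e = min ε (1 / 2) := ⟨_, rfl⟩
  have he0 : 0 < e := by rw [he]; exact lt_min hε (by norm_num)
  have he1 : e ≤ ε := by rw [he]; exact min_le_left _ _
  have he2 : e ≤ 1 / 2 := by rw [he]; exact min_le_right _ _
  obtain ⟨d, hd⟩ : ∃ d, d = min (1 / 2) (c * e / 2) := ⟨_, rfl⟩
  have hd0 : 0 < d := by rw [hd]; exact lt_min (by norm_num) (by positivity)
  have hd1 : d ≤ 1 / 2 := by rw [hd]; exact min_le_left _ _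
  have hd2 : d ≤ c * e / 2 := by rw [hd]; exact min_le_right _ _
  have h1 := loglog_small (c / 2) (by positivity)
  have h2 : ∀ᶠ X : ℕ in atTop, 16 / (d / 8) ≤ Real.log X ^ e :=
    ((tendsto_rpow_atTop he0).comp tendsto_logX).eventually_ge_atTop _
  have h3 : ∀ᶠ X : ℕ in atTop, 16 / (d / 8) ≤ Real.log X ^ (e / 2) :=
    ((tendsto_rpow_atTop (by linarith : (0 : ℝ) < e / 2)).comp tendsto_logX).eventually_ge_atTop _
  have h4 := tendsto_logX.eventually (sq_le_exp (1 / 2) 12 (by norm_num))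
  have h5 := tendsto_logX.eventually (sq_le_exp (d / 4) 11 (by positivity))
  refine ⟨d / 2, by positivity, ?_⟩
  filter_upwards [h1, h2, h3, h4, h5, tendsto_logX.eventually_ge_atTop 100,
    tendsto_loglogX.eventually_ge_atTop 1] with X g1 g2 g3 g4 g5 g6 g7 Ω _ P _ E k hE hk
  obtain ⟨L, hL⟩ : ∃ L, L = Real.log X := ⟨_, rfl⟩
  rw [← hL] at g1 g2 g3 g4 g5 g6 g7 hk ⊢
  obtain ⟨l, hl⟩ : ∃ l, l = Real.log L := ⟨_, rfl⟩
  rw [← hl] at g1 g7 hk
  have hL0 : 0 < L := by linarith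
  have hl0 : 0 < l := by linarith
  have hX0 : (0 : ℝ) < X := by
    rcases Nat.eq_zero_or_pos X with h | h
    · subst h
      simp at hL
      linarith
    · exact_mod_cast h
  have hk2 : 2 ≤ k := by
    have : (2 : ℝ) ≤ c * L / l := by
      rw [le_div_iff₀ hl0]
      linarith
    exact_mod_cast this.trans hk
  have hpow1 : 1 ≤ L ^ (1 - e) := Real.one_le_rpow (by linarith) (by linarith)
  have hsplit : L = L ^ (1 - e) * L ^ e := by
    rw [← Real.rpow_add hL0]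
    simp
  have hsplit2 : L = L ^ (1 - e) * L ^ (e / 2) * L ^ (e / 2) := by
    rw [← Real.rpow_add hL0, ← Real.rpow_add hL0]
    rw [show 1 - e + e / 2 + e / 2 = 1 by ring, Real.rpow_one]
  have hsq : L ^ (2 - e) = L * L ^ (1 - e) := by
    rw [show (2 : ℝ) - e = 1 + (1 - e) by ring, Real.rpow_add hL0, Real.rpow_one]
  have hLle : L ^ (1 - e) ≤ L := by
    calc L ^ (1 - e) ≤ L ^ (1 : ℝ) := Real.rpow_le_rpow_of_exponent_le (by linarith) (by linarith)
      _ = L := Real.rpow_one L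
  obtain ⟨h, hh⟩ : ∃ h, h = ⌈L ^ (2 - e)⌉₊ := ⟨_, rfl⟩
  have hh1 : L ^ (2 - e) ≤ h := by rw [hh]; exact Nat.le_ceil _
  have hh2 : (h : ℝ) < L ^ (2 - e) + 1 := by rw [hh]; exact Nat.ceil_lt_add_one (by positivity)
  have hhs : (h : ℝ) * (2 / L) ≤ 4 * L ^ (1 - e) := by
    have : (h : ℝ) ≤ 2 * (L * L ^ (1 - e)) := by
      rw [hsq] at hh2
      nlinarith
    calc (h : ℝ) * (2 / L) ≤ 2 * (L * L ^ (1 - e)) * (2 / L) := mul_le_mul_of_nonneg_right this (by positivity)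
      _ = 4 * L ^ (1 - e) := by field_simp; ring
  have hhe : (1 : ℝ) + h ≤ Real.exp (L / 2) / 4 := by
    have e1 : (h : ℝ) ≤ L * L + 1 := by
      rw [hsq] at hh2
      nlinarith
    have e2 : 12 * L ^ 2 ≤ Real.exp (L / 2) := by
      rw [show L / 2 = 1 / 2 * L by ring]
      exact g4
    nlinarith
  have hmain := low_gen h (4 * L ^ (1 - e)) (L ^ (e / 2)) (by rw [← hL]; exact g6) hk2 hE
    (by rw [← hL]; exact hhe) (by rw [← hL]; exact hhs) (by positivity)
  rw [← hL] at hmain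
  -- the estimates
  have a1 : 4 * (4 * L ^ (1 - e)) ≤ d / 8 * L := by
    rw [div_le_iff₀ (by positivity)] at g2
    calc 4 * (4 * L ^ (1 - e)) = L ^ (1 - e) * 16 := by ring
      _ ≤ L ^ (1 - e) * (L ^ e * (d / 8)) := mul_le_mul_of_nonneg_left g2 (by positivity)
      _ = d / 8 * (L ^ (1 - e) * L ^ e) := by ring
      _ = d / 8 * L := by rw [← hsplit]
  have a2 : L ^ (e / 2) * (2 * (4 * L ^ (1 - e))) ≤ d / 8 * L := by
    rw [div_le_iff₀ (by positivity)] at g3
    have hp : 0 ≤ L ^ (1 - e) * L ^ (e / 2) := by positivity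
    calc L ^ (e / 2) * (2 * (4 * L ^ (1 - e))) = L ^ (1 - e) * L ^ (e / 2) * 8 := by ring
      _ ≤ L ^ (1 - e) * L ^ (e / 2) * 16 := mul_le_mul_of_nonneg_left (by norm_num) hp
      _ ≤ L ^ (1 - e) * L ^ (e / 2) * (L ^ (e / 2) * (d / 8)) := mul_le_mul_of_nonneg_left g3 hp
      _ = d / 8 * (L ^ (1 - e) * L ^ (e / 2) * L ^ (e / 2)) := by ring
      _ = d / 8 * L := by rw [← hsplit2]
  have a3 : Real.exp (d * L) ≤ (L ^ (e / 2)) ^ k := by
    rw [← Real.rpow_natCast, ← Real.rpow_mul hL0.le, Real.rpow_def_of_pos hL0, ← hl]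
    apply Real.exp_le_exp.2
    have e1 : l * (e / 2 * (c * L / l)) ≤ l * (e / 2 * k) :=
      mul_le_mul_of_nonneg_left (mul_le_mul_of_nonneg_left hk (by positivity)) hl0.le
    have e2 : l * (e / 2 * (c * L / l)) = c * e / 2 * L := by field_simp
    have e3 : d * L ≤ c * e / 2 * L := mul_le_mul_of_nonneg_right hd2 hL0.le
    linarith
  have a4 : Real.exp (L ^ (e / 2) * (2 * (4 * L ^ (1 - e)))) / (L ^ (e / 2)) ^ k ≤ Real.exp (d / 8 * L - d * L) := by
    rw [Real.exp_sub]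
    exact div_le_div₀ (Real.exp_pos _).le (Real.exp_le_exp.2 a2) (Real.exp_pos _) a3
  have a5 : Real.exp (-(L / 2)) ≤ Real.exp (d / 8 * L - d * L) := by
    apply Real.exp_le_exp.2
    nlinarith
  have a6 : Real.exp (4 * (4 * L ^ (1 - e))) ≤ Real.exp (d / 8 * L) := Real.exp_le_exp.2 a1
  have hXe : (X : ℝ) ^ (-(d / 2)) = Real.exp (-(d / 2) * L) := by
    rw [Real.rpow_def_of_pos hX0, ← hL]
    congr 1
    ring
  have hfin : P.real {ω | ¬ HasGap E X (h : ℝ) ω} ≤ (X : ℝ) ^ (-(d / 2)) := by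
    refine hmain.trans ?_
    rw [hXe]
    have b1 : Real.exp (4 * (4 * L ^ (1 - e))) * (Real.exp (-(L / 2)) +
        6 * (Real.exp (L ^ (e / 2) * (2 * (4 * L ^ (1 - e)))) / (L ^ (e / 2)) ^ k)) ≤
        Real.exp (d / 8 * L) * (7 * Real.exp (d / 8 * L - d * L)) := by
      refine mul_le_mul a6 (by linarith) (by positivity) (Real.exp_pos _).le
    have b2 : Real.exp (d / 8 * L) * (7 * Real.exp (d / 8 * L - d * L)) = 7 * Real.exp (-(3 * d / 4) * L) := by
      rw [mul_left_comm, ← Real.exp_add]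
      congr 2
      ring
    have b3 : Real.exp (-(L / 2)) ≤ Real.exp (-(3 * d / 4) * L) := by
      apply Real.exp_le_exp.2
      nlinarith
    have b4 : 1 ≤ L ^ 2 := by nlinarith
    have b5 : 0 < Real.exp (-(3 * d / 4) * L) := Real.exp_pos _
    have b6 : Real.exp (d / 4 * L) * Real.exp (-(3 * d / 4) * L) = Real.exp (-(d / 2) * L) := by
      rw [← Real.exp_add]
      congr 1
      ring
    have b7 : 11 * L ^ 2 * Real.exp (-(3 * d / 4) * L) ≤ Real.exp (-(d / 2) * L) := by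
      rw [← b6]
      exact mul_le_mul_of_nonneg_right g5 b5.le
    have b8 : 4 * L ^ 2 * Real.exp (-(L / 2)) ≤ 4 * L ^ 2 * Real.exp (-(3 * d / 4) * L) :=
      mul_le_mul_of_nonneg_left b3 (by positivity)
    have b9 : 7 * Real.exp (-(3 * d / 4) * L) ≤ 7 * L ^ 2 * Real.exp (-(3 * d / 4) * L) := by
      nlinarith
    nlinarith
  refine le_trans (measureReal_mono ?_ (measure_ne_top _ _)) hfin
  intro ω hω hg
  refine hω (hg.mono le_rfl ?_)
  refine le_trans ?_ hh1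
  exact Real.rpow_le_rpow_of_exponent_le (by linarith) (by linarith)

end Pool.Agent.H453.LP
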