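import Pool.Agent.H453.LP.DyLow

/-!
# The threshold for the growth exponent two
-/

namespace Pool.Agent.H453.LP

open MeasureTheory Filter Topology
open Pool.Agent.Q51.LI (IsRandomSet HasGap)
open Pool.Agent.H453.LI (tendsto_logX tendsto_loglogX loglog_small poly_upper)

lemma rpow_small (d δ : ℝ) (hd : 0 < d) (hδ : 0 < δ) : ∀ᶠ X : ℕ in atTop, (X : ℝ) ^ (-d) ≤ δ :=
  ((tendsto_rpow_neg_atTop hd).comp tendsto_natCast_atTop_atTop).eventually_le_const hδ

theorem two_sided (c ε : ℝ) (hc : 0 < c) (hε : 0 < ε) : ∃ δ : ℝ, 0 < δ ∧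
    ∀ᶠ X : ℕ in atTop, ∀ (Ω : Type) (_ : MeasurableSpace Ω) (P : Measure Ω), IsProbabilityMeasure P →
      ∀ (E : ℕ → Set Ω) (k : ℕ), IsRandomSet P k X E → c * Real.log X / Real.log (Real.log X) ≤ k →
        P.real {ω | HasGap E X (Real.log X ^ (2 + 2 / c + ε)) ω ∨ ¬ HasGap E X (Real.log X ^ (2 - ε)) ω} ≤
          (X : ℝ) ^ (-δ) := by
  obtain ⟨d, hd, h1⟩ := poly_low c ε hc hε
  obtain ⟨e, he⟩ : ∃ e, e = min d (ε * c / 4) := ⟨_, rfl⟩
  have he0 : 0 < e := by rw [he]; exact lt_min hd (by positivity)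
  have he1 : e ≤ d := by rw [he]; exact min_le_left _ _
  have he2 : e ≤ ε * c / 4 := by rw [he]; exact min_le_right _ _
  refine ⟨e / 2, by positivity, ?_⟩
  filter_upwards [h1, poly_upper c ε hc hε, rpow_small (e / 2) (1 / 2) (by positivity) (by norm_num),
    eventually_ge_atTop 1] with X g1 g2 g3 g4 Ω _ P hP E k hE hk
  have hX1 : (1 : ℝ) ≤ X := by exact_mod_cast g4
  have hX0 : (0 : ℝ) < X := by linarith
  have hu : P.real {ω | HasGap E X (Real.log X ^ (2 + 2 / c + ε)) ω ∨ ¬ HasGap E X (Real.log X ^ (2 - ε)) ω} ≤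
      P.real {ω | HasGap E X (Real.log X ^ (2 + 2 / c + ε)) ω} + P.real {ω | ¬ HasGap E X (Real.log X ^ (2 - ε)) ω} :=
    measureReal_union_le _ _
  have a1 := g1 Ω _ P hP E k hE hk
  have a2 := g2 Ω _ P hP E k hE hk
  have a3 : (X : ℝ) ^ (-d) ≤ (X : ℝ) ^ (-e) := Real.rpow_le_rpow_of_exponent_le hX1 (by linarith)
  have a4 : (X : ℝ) ^ (-(ε * c / 4)) ≤ (X : ℝ) ^ (-e) := Real.rpow_le_rpow_of_exponent_le hX1 (by linarith)
  have a5 : (X : ℝ) ^ (-e) = (X : ℝ) ^ (-(e / 2)) * (X : ℝ) ^ (-(e / 2)) := by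
    rw [← Real.rpow_add hX0]
    congr 1
    ring
  have a6 : 0 < (X : ℝ) ^ (-(e / 2)) := by positivity
  nlinarith

theorem sharp (c ε : ℝ) (hc : 0 < c) (hε : 0 < ε) :
    ∀ᶠ X : ℕ in atTop, ∀ k : ℕ, (k : ℝ) ≤ c * Real.log X / Real.log (Real.log X) →
      ∃ (Ω : Type) (_ : MeasurableSpace Ω) (P : Measure Ω) (E : ℕ → Set Ω), IsProbabilityMeasure P ∧
        (∀ Y, IsRandomSet P k Y E) ∧
        P.real {ω | ¬ HasGap E X (Real.log X ^ (2 + 2 / c - ε)) ω} ≤ (X : ℝ) ^ (-(1 / 3) : ℝ) := by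
  obtain ⟨e, he⟩ : ∃ e, e = min ε (1 / c) := ⟨_, rfl⟩
  have he0 : 0 < e := by rw [he]; exact lt_min hε (by positivity)
  have he1 : e ≤ ε := by rw [he]; exact min_le_left _ _
  have he2 : e ≤ 1 / c := by rw [he]; exact min_le_right _ _
  have h2c : 2 / c = 2 * (1 / c) := by ring
  have hc1 : 0 < 1 / c := by positivity
  have hlt : c < 2 / ((2 + 2 / c - e) - 2) := by
    rw [lt_div_iff₀ (by rw [h2c]; linarith)]
    have : c * (2 + 2 / c - e - 2) = 2 - c * e := by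
      field_simp
      ring
    rw [this]
    nlinarith
  filter_upwards [dy_lower (2 + 2 / c - e) c (by rw [h2c]; linarith) hc hlt, tendsto_logX.eventually_ge_atTop 1]
    with X h1 h2 k hk
  obtain ⟨Ω, mΩ, P, E, b1, b2, b3⟩ := h1 k hk
  refine ⟨Ω, mΩ, P, E, b1, b2, le_trans (measureReal_mono ?_ (measure_ne_top _ _)) b3⟩
  intro ω hω hg
  exact hω (hg.mono le_rfl (Real.rpow_le_rpow_of_exponent_le h2 (by linarith)))

theorem threshold (k : ℕ → ℕ) :
    (∀ ε : ℝ, 0 < ε → ∀ δ : ℝ, 0 < δ → ∀ᶠ X : ℕ in atTop,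
      ∀ (Ω : Type) (_ : MeasurableSpace Ω) (P : Measure Ω), IsProbabilityMeasure P → ∀ E : ℕ → Set Ω,
        IsRandomSet P (k X) X E →
          P.real {ω | HasGap E X (Real.log X ^ (2 + ε)) ω ∨ ¬ HasGap E X (Real.log X ^ (2 - ε)) ω} ≤ δ) ↔
    Tendsto (fun X : ℕ => (k X : ℝ) * Real.log (Real.log X) / Real.log X) atTop atTop := by
  constructor
  · intro h
    by_contra hcon
    rw [tendsto_atTop] at hcon
    push Not at hcon
    obtain ⟨C₀, hC₀⟩ := hcon
    obtain ⟨C, hC⟩ : ∃ C, C = max C₀ 1 := ⟨_, rfl⟩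
    have hC1 : 1 ≤ C := by rw [hC]; exact le_max_right _ _
    have hCC : C₀ ≤ C := by rw [hC]; exact le_max_left _ _
    have hC0 : 0 < C := by linarith
    have h1 := h (1 / C) (by positivity) (1 / 4) (by norm_num)
    have h2 := sharp C (1 / C) hC0 (by positivity)
    have h3 := (h1.and (h2.and ((rpow_small (1 / 3) (1 / 4) (by norm_num) (by norm_num)).and
      ((tendsto_logX.eventually_ge_atTop 1).and (tendsto_loglogX.eventually_ge_atTop 1)))))
    obtain ⟨X, hX, g1, g2, g3, g4, g5⟩ := (hC₀.and_eventually h3).exists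
    have hk : (k X : ℝ) ≤ C * Real.log X / Real.log (Real.log X) := by
      rw [le_div_iff₀ (by linarith)]
      rw [div_lt_iff₀ (by linarith)] at hX
      have : C₀ * Real.log X ≤ C * Real.log X := mul_le_mul_of_nonneg_right hCC (by linarith)
      linarith
    obtain ⟨Ω, mΩ, P, E, b1, b2, b3⟩ := g2 (k X) hk
    have g6 := g1 Ω mΩ P b1 E (b2 X)
    have e1 : 2 + 2 / C - 1 / C = 2 + 1 / C := by ring
    rw [e1] at b3
    have h5 : P.real {ω | HasGap E X (Real.log X ^ (2 + 1 / C)) ω} ≤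
        P.real {ω | HasGap E X (Real.log X ^ (2 + 1 / C)) ω ∨ ¬ HasGap E X (Real.log X ^ (2 - 1 / C)) ω} :=
      measureReal_mono (fun ω hω => Or.inl hω) (measure_ne_top _ _)
    have h6 : (1 : ℝ) ≤ P.real {ω | HasGap E X (Real.log X ^ (2 + 1 / C)) ω} +
        P.real {ω | ¬ HasGap E X (Real.log X ^ (2 + 1 / C)) ω} := by
      have h7 : {ω | HasGap E X (Real.log X ^ (2 + 1 / C)) ω} ∪ {ω | ¬ HasGap E X (Real.log X ^ (2 + 1 / C)) ω} =
          Set.univ := by
        ext ω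
        simp [em]
      have h8 := measureReal_union_le (μ := P) {ω | HasGap E X (Real.log X ^ (2 + 1 / C)) ω}
        {ω | ¬ HasGap E X (Real.log X ^ (2 + 1 / C)) ω}
      rw [h7] at h8
      have h9 : P.real Set.univ = 1 := by simp
      rwa [h9] at h8
    linarith
  · intro h ε hε δ hδ
    obtain ⟨d, hd, h1⟩ := two_sided (4 / ε) (ε / 2) (by positivity) (by positivity)
    have h2 := h.eventually_ge_atTop (4 / ε)
    filter_upwards [h1, h2, rpow_small d δ hd hδ, tendsto_logX.eventually_ge_atTop 1,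
      tendsto_loglogX.eventually_ge_atTop 1] with X g1 g2 g3 g4 g5 Ω _ P hP E hE
    have hk : 4 / ε * Real.log X / Real.log (Real.log X) ≤ k X := by
      rw [div_le_iff₀ (by linarith)]
      rwa [le_div_iff₀ (by linarith)] at g2
    refine le_trans (measureReal_mono ?_ (measure_ne_top _ _)) ((g1 Ω _ P hP E (k X) hE hk).trans g3)
    intro ω hω
    have e1 : 2 + 2 / (4 / ε) + ε / 2 = 2 + ε := by
      field_simp
      ring
    rcases hω with hω | hω
    · refine Or.inl ?_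
      rw [e1]
      exact hω
    · refine Or.inr fun hg => hω (hg.mono le_rfl (Real.rpow_le_rpow_of_exponent_le g4 (by linarith)))

end Pool.Agent.H453.LP
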