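import Pool.Agent.H453.LP.LowPoly
import Pool.Graph.R_pool_sql_team_seeded_3997aac3.Q198.CC.L7
import Pool.Graph.R_pool_sql_team_seeded_3997aac3.Q198.CI.Dyad

/-!
# Random sets with independence of order `k` and small gaps
-/

namespace Pool.Agent.H453.LP

open Finset MeasureTheory Filter
open Q198.CI (IsLaw cp cp_nonneg cp_le_one bm bm_empty)
open Q198.CC (pwt pwt_nonneg pwt_law pwt_total pwt_union sum_powerset_union' gP gP_prob gP_block gP_indep)
open Pool.Agent.Q51.LI (IsRandomSet HasGap)

/-- a function of a random subset of a group, with mean zero -/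
noncomputable def phi (v : ℝ) (S : Finset ℕ) : ℝ := if S = ∅ then -1 else v / (1 - v)

lemma phi_abs {v : ℝ} (h0 : 0 ≤ v) (h1 : v ≤ 1 / 2) (S : Finset ℕ) : |phi v S| ≤ 1 := by
  unfold phi
  split_ifs with h
  · simp
  · have h2 : 0 < 1 - v := by linarith
    rw [abs_of_nonneg (div_nonneg h0 h2.le), div_le_one h2]
    linarith

lemma phi_mean (A : Finset ℕ) (p : ℕ → ℝ) (h1 : ∏ n ∈ A, (1 - p n) ≤ 1 / 2) :
    ∑ S ∈ A.powerset, pwt A p S * phi (∏ n ∈ A, (1 - p n)) S = 0 := by
  classical
  obtain ⟨v, hv⟩ : ∃ v, v = ∏ n ∈ A, (1 - p n) := ⟨_, rfl⟩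
  rw [← hv] at h1 ⊢
  have h2 : 1 - v ≠ 0 := by linarith
  have h3 : ∑ S ∈ A.powerset, pwt A p S * phi v S =
      ∑ S ∈ A.powerset, (pwt A p S * (v / (1 - v)) - (if S = ∅ then pwt A p S * (1 + v / (1 - v)) else 0)) := by
    refine sum_congr rfl fun S _ => ?_
    unfold phi
    split_ifs with h
    · ring
    · ring
  rw [h3, sum_sub_distrib, ← sum_mul, pwt_total, one_mul, sum_ite_eq' A.powerset ∅,
    if_pos (empty_mem_powerset A)]
  have h4 : pwt A p ∅ = v := by
    unfold pwt
    rw [hv]
    simp
  rw [h4]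
  field_simp
  ring

/-- A law of order `k` on a set that contains `k + 1` disjoint groups, for which the set is never void. -/
theorem never_law {I : Finset ℕ} {k : ℕ} {p : ℕ → ℝ} (J : ℕ → Finset ℕ) (hJ : ∀ j ∈ range (k + 1), J j ⊆ I)
    (hd : ∀ i ∈ range (k + 1), ∀ j ∈ range (k + 1), i ≠ j → Disjoint (J i) (J j))
    (h0 : ∀ n ∈ I, 0 ≤ p n) (h1 : ∀ n ∈ I, p n ≤ 1)
    (hv : ∀ j ∈ range (k + 1), ∏ n ∈ J j, (1 - p n) ≤ 1 / 2) :
    ∃ w : Finset ℕ → ℝ, IsLaw I k p w ∧ w ∅ = 0 := by
  classical
  set v : ℕ → ℝ := fun j => ∏ n ∈ J j, (1 - p n) with hvd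
  have hv0 : ∀ j ∈ range (k + 1), 0 ≤ v j := fun j hj =>
    prod_nonneg fun n hn => by linarith [h1 n (hJ j hj hn)]
  set Φ : Finset ℕ → ℝ := fun S => ∏ j ∈ range (k + 1), phi (v j) (S ∩ J j) with hΦ
  have hΦ1 : ∀ S, |Φ S| ≤ 1 := by
    intro S
    simp only [hΦ, abs_prod]
    exact prod_le_one (fun _ _ => abs_nonneg _) fun j hj => phi_abs (hv0 j hj) (hv j hj) _
  set σ : ℝ := -(-1) ^ (k + 1) with hσ
  have hσ1 : |σ| = 1 := by
    rw [hσ, abs_neg, abs_pow, abs_neg, abs_one, one_pow]
  refine ⟨fun S => pwt I p S * (1 + σ * Φ S), ⟨fun S hS => ?_, fun T hT hTk => ?_⟩, ?_⟩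
  · refine mul_nonneg (pwt_nonneg h0 h1 hS) ?_
    have h2 : |σ * Φ S| ≤ 1 := by
      rw [abs_mul, hσ1, one_mul]
      exact hΦ1 S
    linarith [(abs_le.1 h2).1]
  · have h2 : ∑ S ∈ Icc T I, pwt I p S * (1 + σ * Φ S) =
        ∑ S ∈ Icc T I, pwt I p S + σ * ∑ S ∈ Icc T I, pwt I p S * Φ S := by
      rw [mul_sum, ← sum_add_distrib]
      exact sum_congr rfl fun S _ => by ring
    rw [h2, (pwt_law h0 h1 k).2 T hT hTk]
    have h3 : ∑ S ∈ Icc T I, pwt I p S * Φ S = 0 := by
      -- an untouched group
      obtain ⟨j₀, hj₀, hj₀T⟩ : ∃ j₀ ∈ range (k + 1), Disjoint (J j₀) T := by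
        by_contra hcon
        push Not at hcon
        have h4 : ∀ j ∈ range (k + 1), ∃ n, n ∈ J j ∧ n ∈ T := by
          intro j hj
          have := hcon j hj
          rw [Finset.not_disjoint_iff] at this
          exact this
        choose! f hf using h4
        have h5 : (range (k + 1)).card ≤ T.card := by
          refine card_le_card_of_injOn f (fun j hj => (hf j hj).2) ?_
          intro i hi j hj hij
          by_contra hne
          have h6 := hd i hi j hj hne
          have h7 := (hf i hi).1
          have h8 := (hf j hj).1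
          rw [← hij] at h8
          exact (disjoint_left.1 h6 h7) h8
        rw [card_range] at h5
        omega
      set A := J j₀ with hA
      set C := I \ A with hC
      have hAC : A ∪ C = I := union_sdiff_of_subset (hJ j₀ hj₀)
      have hdAC : Disjoint A C := disjoint_sdiff
      have hTC : T ⊆ C := fun n hn => mem_sdiff.2 ⟨hT hn, fun h => (disjoint_left.1 hj₀T h) hn⟩
      have e : Icc T I = I.powerset.filter (fun S => T ⊆ S) := by
        ext S
        simp only [mem_Icc, mem_filter, mem_powerset]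
        exact and_comm
      rw [e, sum_filter, ← hAC, sum_powerset_union' hdAC]
      have h4 : ∀ U ∈ A.powerset, ∀ Y ∈ C.powerset,
          (if T ⊆ U ∪ Y then pwt (A ∪ C) p (U ∪ Y) * Φ (U ∪ Y) else 0) =
            (pwt A p U * phi (v j₀) U) *
              (if T ⊆ Y then pwt C p Y * ∏ j ∈ (range (k + 1)).erase j₀, phi (v j) (Y ∩ J j) else 0) := by
        intro U hU Y hY
        rw [mem_powerset] at hU hY
        have h5 : T ⊆ U ∪ Y ↔ T ⊆ Y := by
          constructor
          · intro h n hn
            rcases mem_union.1 (h hn) with h6 | h6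
            · exact absurd (hU h6) (fun h7 => (disjoint_left.1 hdAC h7) (hTC hn))
            · exact h6
          · exact fun h => h.trans subset_union_right
        by_cases h6 : T ⊆ Y
        · rw [if_pos (h5.2 h6), if_pos h6, pwt_union hdAC p hU hY]
          have h7 : Φ (U ∪ Y) = phi (v j₀) U * ∏ j ∈ (range (k + 1)).erase j₀, phi (v j) (Y ∩ J j) := by
            simp only [hΦ]
            rw [← mul_prod_erase (range (k + 1)) _ hj₀]
            congr 1
            · congr 1
              ext n
              simp only [mem_inter, mem_union]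
              constructor
              · rintro ⟨h8 | h8, h9⟩
                · exact h8
                · exact absurd (hY h8) (fun h10 => (disjoint_left.1 hdAC h9) h10)
              · exact fun h8 => ⟨Or.inl h8, hU h8⟩
            · refine prod_congr rfl fun j hj => ?_
              congr 1
              ext n
              simp only [mem_inter, mem_union]
              constructor
              · rintro ⟨h8 | h8, h9⟩
                · have h10 := hd j₀ hj₀ j (mem_erase.1 hj).2 (mem_erase.1 hj).1.symm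
                  exact absurd h9 (disjoint_left.1 h10 (hU h8))
                · exact ⟨h8, h9⟩
              · exact fun h8 => ⟨Or.inr h8.1, h8.2⟩
          rw [h7]
          ring
        · rw [if_neg fun h => h6 (h5.1 h), if_neg h6, mul_zero]
      rw [sum_congr rfl fun U hU => sum_congr rfl fun Y hY => h4 U hU Y hY]
      simp_rw [← mul_sum]
      rw [← sum_mul, phi_mean A p (hv j₀ hj₀), zero_mul]
    rw [h3]
    ring
  · have h2 : Φ ∅ = (-1) ^ (k + 1) := by
      simp only [hΦ]
      rw [prod_congr rfl fun j _ => show phi (v j) (∅ ∩ J j) = -1 by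
        rw [empty_inter]; unfold phi; rw [if_pos rfl]]
      rw [prod_const, card_range]
    have h3 : σ * Φ ∅ = -1 := by
      rw [h2, hσ, neg_mul, ← mul_pow]
      norm_num
    simp only [h3]
    ring

end Pool.Agent.H453.LP
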